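import Pool.Agent.Helper85.BP.Defs
import Pool.Agent.Helper72.BAM.XB
import Pool.Agent.Helper72.BAM.YB
import Pool.Agent.Helper72.BAM.MX

/-!
# X, Y bounds and the maximal function for real exponents (module R3, MP_3dd6d4_an)
-/

set_option autoImplicit false

open MeasureTheory Complex FourierTransform Filter Topology
open scoped ENNReal NNReal ComplexConjugate

noncomputable section

namespace Helper85.BP.P

open Helper72.BA Helper85.BP

theorem r3_sq_rpow (p : ℝ) (x : ℝ≥0∞) : (x ^ 2) ^ (p / 2) = x ^ p := by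
  rw [← ENNReal.rpow_natCast, ← ENNReal.rpow_mul]
  congr 1
  push_cast
  ring

theorem X_real : ∃ C : ℝ, 0 < C ∧ ∀ n : ℕ, 1 ≤ n → ∀ A : Finset ℤ, ∀ p : ℝ, 2 ≤ p →
    ∀ f : ℂ → ℂ, Nice f →
    ∑ j ∈ A, nrp p (gj n j f) ≤ ENNReal.ofReal ((C * n) ^ (p - 2)) * nrp p f := by
  obtain ⟨C, hC, hL1⟩ := Helper72.BA.P.kernel_L1
  refine ⟨C, hC, fun n hn A p hp f hf => ?_⟩
  have hCn : 0 ≤ C * n := by positivity
  have hinf : ∀ j ∈ A, ∀ f, Nice f → (∀ z, ‖f z‖ ≤ 1) → ∀ x : ℂ,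
      ∫⁻ _ : Unit, ‖gj n j f x‖ₑ ^ 2 ∂(Measure.dirac ()) ≤ ((Real.toNNReal (C * n) : ℝ≥0) : ℝ≥0∞) ^ 2 := by
    intro j _ f hf hf1 x
    rw [lintegral_dirac]
    refine pow_le_pow_left₀ (zero_le) ?_ 2
    calc ‖gj n j f x‖ₑ = ‖∫ w, KK n j (x - w) * f w‖ₑ := rfl
      _ ≤ ∫⁻ w, ‖KK n j (x - w) * f w‖ₑ := enorm_integral_le_lintegral_enorm _
      _ ≤ ∫⁻ w, ‖KK n j (x - w)‖ₑ := by
          refine lintegral_mono fun w => ?_
          rw [enorm_mul]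
          calc ‖KK n j (x - w)‖ₑ * ‖f w‖ₑ ≤ ‖KK n j (x - w)‖ₑ * 1 := by
                refine mul_le_mul_right ?_ _
                rw [← ofReal_norm, ← ENNReal.ofReal_one]
                exact ENNReal.ofReal_le_ofReal (hf1 w)
            _ = ‖KK n j (x - w)‖ₑ := mul_one _
      _ = ∫⁻ w, ‖KK n j w‖ₑ := lintegral_sub_left_eq_self (fun w => ‖KK n j w‖ₑ) x
      _ ≤ ENNReal.ofReal (C * n) := hL1 n hn j
  have h := Helper72.BA.P.RT2 (X := ℂ) (Y := Unit) A (fun _ => volume) (Measure.dirac ())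
    (fun j f x _ => gj n j f x)
    (fun j f hf => (Helper72.BA.P.nice_cv (Helper72.BA.P.ker_KK n j) hf).meas.comp measurable_fst)
    (fun j f g hf hg => by
      funext x y
      exact congrFun (Helper72.BA.P.cv_add (Helper72.BA.P.ker_KK n j) hf hg) x)
    (fun j c f _ => by
      funext x y
      exact congrFun (Helper72.BA.P.cv_smul (K := KK n j) (f := f) c) x)
    1 (Real.toNNReal (C * n))
    (fun f hf => by
      have h1 := Helper72.BA.P.sum_nrm_two_le n A f hf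
      unfold nrm at h1
      simpa only [lintegral_dirac, ENNReal.coe_one, one_mul] using h1)
    hinf p hp f hf
  simp only [lintegral_dirac, r3_sq_rpow, ENNReal.coe_one, one_mul] at h
  unfold nrp
  rw [← ENNReal.ofReal_rpow_of_nonneg hCn (by linarith)]
  exact h

open Helper72.BA.P.YBx in
theorem Y_real : ∃ C : ℝ, 0 < C ∧ ∀ n : ℕ, 1 ≤ n → ∀ A : Finset ℤ, ∀ m : ℕ,
    (2:ℝ) ^ m ≤ 2 * n → ∀ p : ℝ, 2 ≤ p → ∀ f : ℂ → ℂ, Nice f →
    ∑ j ∈ A, ∫⁻ z, (∫⁻ w, ENNReal.ofReal (gam ((2:ℝ) ^ ((m:ℤ) - j)) (z - w)) *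
        ‖gj n j f w‖ₑ ^ 2) ^ (p / 2)
      ≤ ENNReal.ofReal (C * (C * n / 2 ^ m) ^ (p - 2)) * nrp p f := by
  obtain ⟨CE, hCE, hE⟩ := Helper72.BA.P.energy
  set D : ℝ := 4 * Real.sqrt (CE * G0) with hD
  have hD0 : 0 ≤ D := by positivity
  refine ⟨1 + G0 + D, by have := G0_nonneg; positivity, ?_⟩
  intro n hn A m hm p hp f hf
  have hG := G0_nonneg
  have hnm : (0:ℝ) ≤ n / 2 ^ m := by positivity
  have key := Helper72.BA.P.RT2 (X := ℂ) (Y := ℂ) A (fun _ => volume) volume (fun j => S n m j)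
    (fun j f hf => S_meas n m j f hf) (fun j f g hf hg => S_add n m j f g hf hg)
    (fun j c f _ => S_smul n m j c f) (Real.toNNReal G0) (Real.toNNReal (D * (n / 2 ^ m)))
    (fun f hf => S_two n m A f hf)
    (fun j _ f hf hf1 z => by
      refine (S_inf hCE hE n hn m hm j f hf hf1 z).trans ?_
      rw [show ((Real.toNNReal (D * (n / 2 ^ m)) : ℝ≥0) : ℝ≥0∞) = ENNReal.ofReal (D * (n / 2 ^ m)) from rfl,
        ← ENNReal.ofReal_pow (by positivity)]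
      apply ENNReal.ofReal_le_ofReal
      rw [hD, mul_pow, mul_pow, Real.sq_sqrt (by positivity)]
      apply le_of_eq
      ring)
    p hp f hf
  simp only [S_sq] at key
  refine key.trans ?_
  rw [nrp]
  gcongr
  rw [show ((Real.toNNReal (D * (n / 2 ^ m)) : ℝ≥0) : ℝ≥0∞) = ENNReal.ofReal (D * (n / 2 ^ m)) from rfl,
    show ((Real.toNNReal G0 : ℝ≥0) : ℝ≥0∞) = ENNReal.ofReal G0 from rfl,
    ENNReal.ofReal_rpow_of_nonneg (by positivity) (by linarith), ← ENNReal.ofReal_mul hG]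
  apply ENNReal.ofReal_le_ofReal
  have h2 : (0:ℝ) ≤ p - 2 := by linarith
  gcongr
  · linarith
  · rw [mul_div_assoc]
    gcongr
    linarith

theorem maximal_real (q : ℝ) (hq : 2 ≤ q) : ∃ C : ℝ≥0, ∀ (I : Finset ℤ) (ρ : ℤ → ℝ)
    (_ : ∀ i, 0 < ρ i) (h : ℂ → ℝ≥0∞) (_ : Measurable h),
    ∫⁻ z, (⨆ i ∈ I, ∫⁻ w, ENNReal.ofReal (gam (ρ i) (z - w)) * h w) ^ q ≤ C * ∫⁻ z, (h z) ^ q := by
  obtain ⟨C, hC⟩ := Helper72.BA.P.mx_two
  refine ⟨Helper72.BA.P.mxc ^ (q - 2) * C, fun I ρ hρ h hh => ?_⟩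
  set p : ℝ := q / 2 with hp
  have hp1 : 1 ≤ p := by
    rw [hp, le_div_iff₀ (by norm_num)]
    linarith
  have hp0 : 0 < p := by linarith
  have hm : Measurable fun w => h w ^ p := hh.pow_const _
  have hmain := hC I ρ hρ (fun w => h w ^ p) hm
  have e1 : ∀ x : ℝ≥0∞, (x ^ p) ^ 2 = x ^ q := by
    intro x
    rw [← ENNReal.rpow_natCast, ← ENNReal.rpow_mul]
    congr 1
    rw [hp]; push_cast; ring
  simp only [e1] at hmain
  have hpt : ∀ z, (⨆ i ∈ I, ∫⁻ w, ENNReal.ofReal (gam (ρ i) (z - w)) * h w) ^ q ≤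
      (Helper72.BA.P.mxc : ℝ≥0∞) ^ (q - 2) * Helper72.BA.P.mxM I ρ (fun w => h w ^ p) z ^ 2 := by
    intro z
    rw [← e1]
    have h1 : (⨆ i ∈ I, ∫⁻ w, ENNReal.ofReal (gam (ρ i) (z - w)) * h w) ^ p ≤
        (Helper72.BA.P.mxc : ℝ≥0∞) ^ (p - 1) * Helper72.BA.P.mxM I ρ (fun w => h w ^ p) z := by
      rcases I.eq_empty_or_nonempty with rfl | hI
      · simp [hp0]
      obtain ⟨i0, hi0, hmax⟩ := I.exists_max_image (fun i => Helper72.BA.P.mxF ρ i h z) hI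
      have : (⨆ i ∈ I, ∫⁻ w, ENNReal.ofReal (gam (ρ i) (z - w)) * h w) = Helper72.BA.P.mxF ρ i0 h z := by
        apply le_antisymm
        · exact iSup₂_le fun j hj => hmax j hj
        · exact le_iSup₂_of_le i0 hi0 le_rfl
      rw [this]
      refine (Helper72.BA.P.mx_jensen ρ hρ i0 p hp1 h hh z).trans ?_
      gcongr
      exact le_iSup₂_of_le i0 hi0 le_rfl
    calc ((⨆ i ∈ I, ∫⁻ w, ENNReal.ofReal (gam (ρ i) (z - w)) * h w) ^ p) ^ 2
        ≤ ((Helper72.BA.P.mxc : ℝ≥0∞) ^ (p - 1) *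
            Helper72.BA.P.mxM I ρ (fun w => h w ^ p) z) ^ 2 := by gcongr
      _ = _ := by
        rw [mul_pow]
        congr 1
        rw [← ENNReal.rpow_natCast, ← ENNReal.rpow_mul]
        congr 1
        rw [hp]; push_cast; ring
  calc ∫⁻ z, (⨆ i ∈ I, ∫⁻ w, ENNReal.ofReal (gam (ρ i) (z - w)) * h w) ^ q
      ≤ ∫⁻ z, (Helper72.BA.P.mxc : ℝ≥0∞) ^ (q - 2) *
          Helper72.BA.P.mxM I ρ (fun w => h w ^ p) z ^ 2 := lintegral_mono hpt
    _ = (Helper72.BA.P.mxc : ℝ≥0∞) ^ (q - 2) *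
          ∫⁻ z, Helper72.BA.P.mxM I ρ (fun w => h w ^ p) z ^ 2 := by
        rw [lintegral_const_mul]
        exact (Helper72.BA.P.mxM_meas I ρ _ hm).pow_const _
    _ ≤ (Helper72.BA.P.mxc : ℝ≥0∞) ^ (q - 2) * (C * ∫⁻ z, h z ^ q) := by gcongr
    _ = _ := by
        rw [← mul_assoc, ENNReal.coe_mul, ENNReal.coe_rpow_of_nonneg _ (by linarith)]

end Helper85.BP.P
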