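import Pool.Agent.Helper85.BP.Defs

/-!
# The weights `gamN` (module R4a, MP_3dd6d4_an)
-/

set_option autoImplicit false

open MeasureTheory Complex FourierTransform Filter Topology
open scoped ENNReal NNReal ComplexConjugate

noncomputable section

namespace Helper85.BP.P

open Helper72.BA Helper85.BP

/-! ### masses -/

/-- the weight with a real exponent -/
def r4g (s ρ : ℝ) (z : ℂ) : ℝ := (ρ ^ 2)⁻¹ * (1 + ‖z‖ ^ 2 / ρ ^ 2) ^ (-s)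

theorem r4g_nonneg (s ρ : ℝ) (z : ℂ) : 0 ≤ r4g s ρ z := by unfold r4g; positivity

theorem r4g_one_int (s : ℝ) (hs : 1 < s) : Integrable (r4g s 1) := by
  have h := integrable_rpow_neg_one_add_norm_sq (E := ℂ) (μ := volume) (r := 2 * s) (by
    rw [Complex.finrank_real_complex]; push_cast; linarith)
  refine h.congr (Filter.Eventually.of_forall fun z => ?_)
  simp only [r4g]
  rw [show (-(2 * s)/2) = -s by ring]
  simp

theorem r4g_scale (s : ℝ) {ρ : ℝ} (hρ : 0 < ρ) (z : ℂ) :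
    r4g s ρ z = (ρ ^ 2)⁻¹ * r4g s 1 (ρ⁻¹ • z) := by
  unfold r4g
  rw [norm_smul, Real.norm_eq_abs, abs_of_pos (by positivity)]
  simp only [one_pow, inv_one, one_mul, div_one]
  congr 3
  field_simp

theorem r4g_int (s : ℝ) (hs : 1 < s) {ρ : ℝ} (hρ : 0 < ρ) : Integrable (r4g s ρ) := by
  have h : Integrable (fun z : ℂ => (ρ ^ 2)⁻¹ * r4g s 1 (ρ⁻¹ • z)) :=
    ((r4g_one_int s hs).comp_smul (inv_ne_zero hρ.ne')).const_mul _
  exact h.congr (Filter.Eventually.of_forall fun z => (r4g_scale s hρ z).symm)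

theorem r4g_integral (s : ℝ) {ρ : ℝ} (hρ : 0 < ρ) : ∫ z, r4g s ρ z = ∫ z, r4g s 1 z := by
  have : ∀ z, r4g s ρ z = (ρ ^ 2)⁻¹ * r4g s 1 (ρ⁻¹ • z) := r4g_scale s hρ
  simp only [this]
  rw [integral_const_mul, Measure.integral_comp_inv_smul_of_nonneg _ _ hρ.le,
    Complex.finrank_real_complex, smul_eq_mul, ← mul_assoc, inv_mul_cancel₀ (by positivity), one_mul]

theorem r4g_mass (s : ℝ) (hs : 1 < s) : ∃ C : ℝ, 0 < C ∧ ∀ ρ : ℝ, 0 < ρ → ∀ z : ℂ,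
    ∫⁻ w, ENNReal.ofReal (r4g s ρ (z - w)) ≤ ENNReal.ofReal C := by
  refine ⟨(∫ z, r4g s 1 z) + 1, ?_, fun ρ hρ z => ?_⟩
  · have : 0 ≤ ∫ z, r4g s 1 z := integral_nonneg (r4g_nonneg s 1)
    linarith
  · have e : ∫⁻ w, ENNReal.ofReal (r4g s ρ (z - w)) = ∫⁻ w, ENNReal.ofReal (r4g s ρ w) :=
      lintegral_sub_left_eq_self (fun w => ENNReal.ofReal (r4g s ρ w)) z
    rw [e, ← ofReal_integral_eq_lintegral_ofReal (r4g_int s hs hρ)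
      (Filter.Eventually.of_forall (r4g_nonneg s ρ)), r4g_integral s hρ]
    exact ENNReal.ofReal_le_ofReal (by linarith)

/-! ### elementary properties of `gamN` -/

theorem r4_pos (N : ℕ) {ρ : ℝ} (hρ : 0 < ρ) (z : ℂ) : 0 < gamN N ρ z := by
  unfold gamN; positivity

theorem r4_eq_gam (ρ : ℝ) (z : ℂ) : gam ρ z = gamN 2 ρ z := rfl

theorem r4_cont (N : ℕ) (ρ : ℝ) : Continuous (gamN N ρ) := by
  unfold gamN
  refine Continuous.mul continuous_const ?_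
  refine Continuous.inv₀ (by fun_prop) ?_
  intro z
  positivity

theorem r4_neg (N : ℕ) (ρ : ℝ) (z : ℂ) : gamN N ρ (-z) = gamN N ρ z := by simp [gamN]

theorem r4_le_g (N : ℕ) (s : ℝ) (hs : s ≤ N) (ρ : ℝ) (z : ℂ) : gamN N ρ z ≤ r4g s ρ z := by
  unfold gamN r4g
  have h1 : (1:ℝ) ≤ 1 + ‖z‖ ^ 2 / ρ ^ 2 := by
    have : 0 ≤ ‖z‖ ^ 2 / ρ ^ 2 := by positivity
    linarith
  have h0 : (0:ℝ) ≤ 1 + ‖z‖ ^ 2 / ρ ^ 2 := by linarith
  have h2 : ((1 + ‖z‖ ^ 2 / ρ ^ 2) ^ N)⁻¹ = (1 + ‖z‖ ^ 2 / ρ ^ 2) ^ (-(N:ℝ)) := by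
    rw [Real.rpow_neg h0, Real.rpow_natCast]
  rw [h2]
  gcongr

theorem gamN_shift (N : ℕ) (ρ : ℝ) (hρ : 0 < ρ) (x u : ℂ) :
    gamN N ρ (x - u) ≤ 2 ^ N * (1 + ‖u‖ ^ 2 / ρ ^ 2) ^ N * gamN N ρ x := by
  have h1 : ‖x‖ ≤ ‖x - u‖ + ‖u‖ := by
    have := norm_add_le (x - u) u
    rwa [sub_add_cancel] at this
  have h2 : ‖x‖ ^ 2 ≤ 2 * ‖x - u‖ ^ 2 + 2 * ‖u‖ ^ 2 := by
    have h3 : ‖x‖ ^ 2 ≤ (‖x - u‖ + ‖u‖) ^ 2 := by gcongr
    nlinarith [sq_nonneg (‖x - u‖ - ‖u‖)]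
  have h4 : 1 + ‖x‖ ^ 2 / ρ ^ 2 ≤ 2 * (1 + ‖u‖ ^ 2 / ρ ^ 2) * (1 + ‖x - u‖ ^ 2 / ρ ^ 2) := by
    have h5 : ‖x‖ ^ 2 / ρ ^ 2 ≤ 2 * (‖x - u‖ ^ 2 / ρ ^ 2) + 2 * (‖u‖ ^ 2 / ρ ^ 2) := by
      calc ‖x‖ ^ 2 / ρ ^ 2 ≤ (2 * ‖x - u‖ ^ 2 + 2 * ‖u‖ ^ 2) / ρ ^ 2 := by gcongr
        _ = _ := by ring
    have h6 : 0 ≤ (‖x - u‖ ^ 2 / ρ ^ 2) * (‖u‖ ^ 2 / ρ ^ 2) := by positivity
    nlinarith
  unfold gamN
  have h7 : (1 + ‖x‖ ^ 2 / ρ ^ 2) ^ N ≤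
      2 ^ N * (1 + ‖u‖ ^ 2 / ρ ^ 2) ^ N * (1 + ‖x - u‖ ^ 2 / ρ ^ 2) ^ N := by
    rw [← mul_pow, ← mul_pow]
    gcongr
  have h8 : ((1 + ‖x - u‖ ^ 2 / ρ ^ 2) ^ N)⁻¹ ≤
      2 ^ N * (1 + ‖u‖ ^ 2 / ρ ^ 2) ^ N * ((1 + ‖x‖ ^ 2 / ρ ^ 2) ^ N)⁻¹ := by
    rw [← div_eq_mul_inv, le_div_iff₀ (by positivity), inv_mul_le_iff₀ (by positivity)]
    linarith
  calc (ρ ^ 2)⁻¹ * ((1 + ‖x - u‖ ^ 2 / ρ ^ 2) ^ N)⁻¹
      ≤ (ρ ^ 2)⁻¹ * (2 ^ N * (1 + ‖u‖ ^ 2 / ρ ^ 2) ^ N * ((1 + ‖x‖ ^ 2 / ρ ^ 2) ^ N)⁻¹) := by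
        gcongr
    _ = _ := by ring

theorem gamN_mass (N : ℕ) (hN : 2 ≤ N) : ∃ C : ℝ, 0 < C ∧ ∀ ρ : ℝ, 0 < ρ → ∀ z : ℂ,
    ∫⁻ w, ENNReal.ofReal (gamN N ρ (z - w)) ≤ ENNReal.ofReal C := by
  obtain ⟨C, hC, h⟩ := r4g_mass 2 (by norm_num)
  refine ⟨C, hC, fun ρ hρ z => le_trans (lintegral_mono fun w => ?_) (h ρ hρ z)⟩
  exact ENNReal.ofReal_le_ofReal (r4_le_g N 2 (by exact_mod_cast hN) ρ _)

theorem r4_inv (N : ℕ) {ρ : ℝ} (_ : 0 < ρ) (z : ℂ) :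
    (gamN N ρ z)⁻¹ = ρ ^ 2 * (1 + ‖z‖ ^ 2 / ρ ^ 2) ^ N := by
  unfold gamN
  rw [mul_inv, inv_inv, inv_inv]

theorem r4_add_pow (N : ℕ) (x y : ℝ) (hx : 0 ≤ x) (hy : 0 ≤ y) :
    (x + y) ^ N ≤ 2 ^ N * (x ^ N + y ^ N) := by
  rcases le_total x y with h | h
  · calc (x + y) ^ N ≤ (2 * y) ^ N := by gcongr; linarith
      _ = 2 ^ N * y ^ N := mul_pow _ _ _
      _ ≤ _ := by
        gcongr
        have : 0 ≤ x ^ N := by positivity
        linarith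
  · calc (x + y) ^ N ≤ (2 * x) ^ N := by gcongr; linarith
      _ = 2 ^ N * x ^ N := mul_pow _ _ _
      _ ≤ _ := by
        gcongr
        have : 0 ≤ y ^ N := by positivity
        linarith

/-- the key pointwise inequality for the convolution -/
theorem r4_mul (N : ℕ) (hN : 1 ≤ N) (a b : ℝ) (ha : 0 < a) (hab : a ≤ b) (u v : ℂ) :
    gamN N a u * gamN N b v ≤ 4 ^ N * gamN N b (u + v) * (gamN N a u + gamN N b v) := by
  have hb : 0 < b := ha.trans_le hab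
  have hf := r4_pos N ha u
  have hg := r4_pos N hb v
  have hh := r4_pos N hb (u + v)
  have key : (gamN N b (u + v))⁻¹ ≤ 4 ^ N * ((gamN N a u)⁻¹ + (gamN N b v)⁻¹) := by
    rw [r4_inv N hb, r4_inv N ha, r4_inv N hb]
    have h1 : ‖u + v‖ ^ 2 ≤ 2 * ‖u‖ ^ 2 + 2 * ‖v‖ ^ 2 := by
      have h3 : ‖u + v‖ ^ 2 ≤ (‖u‖ + ‖v‖) ^ 2 := by
        gcongr
        exact norm_add_le u v
      nlinarith [sq_nonneg (‖u‖ - ‖v‖)]
    have h2 : 1 + ‖u + v‖ ^ 2 / b ^ 2 ≤ 2 * ((1 + ‖v‖ ^ 2 / b ^ 2) + ‖u‖ ^ 2 / b ^ 2) := by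
      have h5 : ‖u + v‖ ^ 2 / b ^ 2 ≤ 2 * (‖u‖ ^ 2 / b ^ 2) + 2 * (‖v‖ ^ 2 / b ^ 2) := by
        calc ‖u + v‖ ^ 2 / b ^ 2 ≤ (2 * ‖u‖ ^ 2 + 2 * ‖v‖ ^ 2) / b ^ 2 := by gcongr
          _ = _ := by ring
      linarith
    have h3 : (1 + ‖u + v‖ ^ 2 / b ^ 2) ^ N ≤
        4 ^ N * ((1 + ‖v‖ ^ 2 / b ^ 2) ^ N + (‖u‖ ^ 2 / b ^ 2) ^ N) := by
      calc (1 + ‖u + v‖ ^ 2 / b ^ 2) ^ N
          ≤ (2 * ((1 + ‖v‖ ^ 2 / b ^ 2) + ‖u‖ ^ 2 / b ^ 2)) ^ N := by gcongr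
        _ = 2 ^ N * ((1 + ‖v‖ ^ 2 / b ^ 2) + ‖u‖ ^ 2 / b ^ 2) ^ N := mul_pow _ _ _
        _ ≤ 2 ^ N * (2 ^ N * ((1 + ‖v‖ ^ 2 / b ^ 2) ^ N + (‖u‖ ^ 2 / b ^ 2) ^ N)) := by
            gcongr
            exact r4_add_pow N _ _ (by positivity) (by positivity)
        _ = _ := by
            rw [← mul_assoc, ← mul_pow]
            norm_num
    have h4 : b ^ 2 * (‖u‖ ^ 2 / b ^ 2) ^ N ≤ a ^ 2 * (1 + ‖u‖ ^ 2 / a ^ 2) ^ N := by
      obtain ⟨m, rfl⟩ : ∃ m, N = m + 1 := ⟨N - 1, by omega⟩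
      have e1 : b ^ 2 * (‖u‖ ^ 2 / b ^ 2) ^ (m + 1) = ‖u‖ ^ 2 * (‖u‖ ^ 2 / b ^ 2) ^ m := by
        have e0 : b ^ 2 * (‖u‖ ^ 2 / b ^ 2) = ‖u‖ ^ 2 := by field_simp
        calc b ^ 2 * (‖u‖ ^ 2 / b ^ 2) ^ (m + 1)
            = (b ^ 2 * (‖u‖ ^ 2 / b ^ 2)) * (‖u‖ ^ 2 / b ^ 2) ^ m := by ring
          _ = _ := by rw [e0]
      have e2 : a ^ 2 * (1 + ‖u‖ ^ 2 / a ^ 2) ^ (m + 1) =
          (a ^ 2 + ‖u‖ ^ 2) * (1 + ‖u‖ ^ 2 / a ^ 2) ^ m := by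
        have e0 : a ^ 2 * (1 + ‖u‖ ^ 2 / a ^ 2) = a ^ 2 + ‖u‖ ^ 2 := by field_simp
        calc a ^ 2 * (1 + ‖u‖ ^ 2 / a ^ 2) ^ (m + 1)
            = (a ^ 2 * (1 + ‖u‖ ^ 2 / a ^ 2)) * (1 + ‖u‖ ^ 2 / a ^ 2) ^ m := by ring
          _ = _ := by rw [e0]
      rw [e1, e2]
      have h6 : ‖u‖ ^ 2 / b ^ 2 ≤ 1 + ‖u‖ ^ 2 / a ^ 2 := by
        have : ‖u‖ ^ 2 / b ^ 2 ≤ ‖u‖ ^ 2 / a ^ 2 := by gcongr
        linarith
      have h7 : ‖u‖ ^ 2 ≤ a ^ 2 + ‖u‖ ^ 2 := by nlinarith [sq_nonneg a]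
      gcongr
    calc b ^ 2 * (1 + ‖u + v‖ ^ 2 / b ^ 2) ^ N
        ≤ b ^ 2 * (4 ^ N * ((1 + ‖v‖ ^ 2 / b ^ 2) ^ N + (‖u‖ ^ 2 / b ^ 2) ^ N)) := by gcongr
      _ = 4 ^ N * (b ^ 2 * (‖u‖ ^ 2 / b ^ 2) ^ N + b ^ 2 * (1 + ‖v‖ ^ 2 / b ^ 2) ^ N) := by ring
      _ ≤ _ := by gcongr
  calc gamN N a u * gamN N b v
      = gamN N a u * gamN N b v * gamN N b (u + v) * (gamN N b (u + v))⁻¹ := by
        field_simp
    _ ≤ gamN N a u * gamN N b v * gamN N b (u + v) *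
        (4 ^ N * ((gamN N a u)⁻¹ + (gamN N b v)⁻¹)) := by gcongr
    _ = _ := by
        field_simp
        ring

theorem gamN_conv (N : ℕ) (hN : 2 ≤ N) : ∃ C : ℝ, 0 < C ∧ ∀ a b : ℝ, 0 < a → a ≤ b → ∀ z v : ℂ,
    ∫⁻ w, ENNReal.ofReal (gamN N a (z - w)) * ENNReal.ofReal (gamN N b (w - v)) ≤
      ENNReal.ofReal (C * gamN N b (z - v)) := by
  obtain ⟨C, hC, h⟩ := gamN_mass N hN
  refine ⟨4 ^ N * (C + C), by positivity, fun a b ha hab z v => ?_⟩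
  have hb : 0 < b := ha.trans_le hab
  have h1 : ∀ w, ENNReal.ofReal (gamN N a (z - w)) * ENNReal.ofReal (gamN N b (w - v)) ≤
      ENNReal.ofReal (4 ^ N * gamN N b (z - v)) *
        (ENNReal.ofReal (gamN N a (z - w)) + ENNReal.ofReal (gamN N b (v - w))) := by
    intro w
    rw [← ENNReal.ofReal_mul (r4_pos N ha _).le,
      ← ENNReal.ofReal_add (r4_pos N ha _).le (r4_pos N hb _).le,
      ← ENNReal.ofReal_mul (by have := r4_pos N hb (z - v); positivity)]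
    apply ENNReal.ofReal_le_ofReal
    have := r4_mul N (by omega) a b ha hab (z - w) (w - v)
    rw [sub_add_sub_cancel] at this
    rw [← r4_neg N b (v - w), neg_sub]
    exact this
  calc ∫⁻ w, ENNReal.ofReal (gamN N a (z - w)) * ENNReal.ofReal (gamN N b (w - v))
      ≤ ∫⁻ w, ENNReal.ofReal (4 ^ N * gamN N b (z - v)) *
        (ENNReal.ofReal (gamN N a (z - w)) + ENNReal.ofReal (gamN N b (v - w))) :=
        lintegral_mono h1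
    _ = ENNReal.ofReal (4 ^ N * gamN N b (z - v)) *
        ((∫⁻ w, ENNReal.ofReal (gamN N a (z - w))) + ∫⁻ w, ENNReal.ofReal (gamN N b (v - w))) := by
        rw [lintegral_const_mul' _ _ ENNReal.ofReal_ne_top, lintegral_add_left]
        exact ENNReal.measurable_ofReal.comp
          ((r4_cont N a).comp (continuous_const.sub continuous_id)).measurable
    _ ≤ ENNReal.ofReal (4 ^ N * gamN N b (z - v)) * (ENNReal.ofReal C + ENNReal.ofReal C) := by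
        gcongr
        · exact h a ha z
        · exact h b hb v
    _ = _ := by
        rw [← ENNReal.ofReal_add hC.le hC.le,
          ← ENNReal.ofReal_mul (by have := r4_pos N hb (z - v); positivity)]
        congr 1
        ring

theorem gamN_avg_pow (N : ℕ) (q : ℝ) (hq : 0 < q) (hN : 2 * q + 1 < N) : ∃ C : ℝ, 0 < C ∧
    ∀ a b : ℝ, 0 < a → a ≤ b → ∀ h : ℂ → ℝ≥0∞, Measurable h → ∀ z : ℂ,
    ∫⁻ w, ENNReal.ofReal (gamN N a (z - w)) *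
        (∫⁻ v, ENNReal.ofReal (gam b (w - v)) * h v) ^ q ≤
      ENNReal.ofReal C * (∫⁻ v, ENNReal.ofReal (gam b (z - v)) * h v) ^ q := by
  obtain ⟨C, hC, hM⟩ := r4g_mass (N - 2 * q) (by linarith)
  refine ⟨4 ^ q * C, by positivity, fun a b ha hab h hh z => ?_⟩
  have hb : 0 < b := ha.trans_le hab
  set G : ℝ≥0∞ := ∫⁻ v, ENNReal.ofReal (gam b (z - v)) * h v with hG
  have h1 : ∀ w, (∫⁻ v, ENNReal.ofReal (gam b (w - v)) * h v) ≤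
      ENNReal.ofReal (4 * (1 + ‖z - w‖ ^ 2 / b ^ 2) ^ 2) * G := by
    intro w
    rw [hG, ← lintegral_const_mul' _ _ ENNReal.ofReal_ne_top]
    refine lintegral_mono fun v => ?_
    have h2 := gamN_shift 2 b hb (z - v) (z - w)
    rw [show z - v - (z - w) = w - v by ring] at h2
    calc ENNReal.ofReal (gam b (w - v)) * h v
        ≤ ENNReal.ofReal (4 * (1 + ‖z - w‖ ^ 2 / b ^ 2) ^ 2 * gam b (z - v)) * h v := by
          gcongr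
          rw [r4_eq_gam, r4_eq_gam]
          refine h2.trans (le_of_eq ?_)
          norm_num
      _ = _ := by
          rw [ENNReal.ofReal_mul (by positivity), mul_assoc]
  have h3 : ∀ w, ENNReal.ofReal (gamN N a (z - w)) *
      (∫⁻ v, ENNReal.ofReal (gam b (w - v)) * h v) ^ q ≤
      ENNReal.ofReal (4 ^ q) * (ENNReal.ofReal (r4g (N - 2 * q) a (z - w))) * G ^ q := by
    intro w
    set X : ℝ := 1 + ‖z - w‖ ^ 2 / a ^ 2 with hX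
    have hX1 : 1 + ‖z - w‖ ^ 2 / b ^ 2 ≤ X := by
      rw [hX]
      gcongr
    have hX0 : 0 < X := by rw [hX]; positivity
    have h4 : (∫⁻ v, ENNReal.ofReal (gam b (w - v)) * h v) ^ q ≤
        ENNReal.ofReal (4 ^ q * X ^ (2 * q)) * G ^ q := by
      calc (∫⁻ v, ENNReal.ofReal (gam b (w - v)) * h v) ^ q
          ≤ (ENNReal.ofReal (4 * X ^ 2) * G) ^ q := by
            gcongr
            refine (h1 w).trans ?_
            gcongr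
        _ = ENNReal.ofReal (4 * X ^ 2) ^ q * G ^ q := ENNReal.mul_rpow_of_nonneg _ _ hq.le
        _ = _ := by
            congr 1
            rw [ENNReal.ofReal_rpow_of_nonneg (by positivity) hq.le]
            congr 1
            rw [Real.mul_rpow (by norm_num) (by positivity), ← Real.rpow_natCast,
              ← Real.rpow_mul hX0.le]
            norm_num
    calc ENNReal.ofReal (gamN N a (z - w)) *
          (∫⁻ v, ENNReal.ofReal (gam b (w - v)) * h v) ^ q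
        ≤ ENNReal.ofReal (gamN N a (z - w)) *
          (ENNReal.ofReal (4 ^ q * X ^ (2 * q)) * G ^ q) := by gcongr
      _ = (ENNReal.ofReal (4 ^ q) * ENNReal.ofReal (r4g (N - 2 * q) a (z - w))) * G ^ q := by
          rw [← mul_assoc, ← ENNReal.ofReal_mul (r4_pos N ha _).le,
            ← ENNReal.ofReal_mul (by positivity)]
          congr 2
          unfold gamN r4g
          rw [← hX, show (-((N:ℝ) - 2 * q)) = -(N:ℝ) + 2 * q by ring, Real.rpow_add hX0,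
            Real.rpow_neg hX0.le, Real.rpow_natCast]
          ring
      _ = _ := rfl
  calc ∫⁻ w, ENNReal.ofReal (gamN N a (z - w)) *
        (∫⁻ v, ENNReal.ofReal (gam b (w - v)) * h v) ^ q
      ≤ ∫⁻ w, ENNReal.ofReal (4 ^ q) * (ENNReal.ofReal (r4g (N - 2 * q) a (z - w))) * G ^ q :=
        lintegral_mono h3
    _ = (ENNReal.ofReal (4 ^ q) * ∫⁻ w, ENNReal.ofReal (r4g (N - 2 * q) a (z - w))) * G ^ q := by
        have hc : Continuous (r4g ((N:ℝ) - 2 * q) a) := by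
          unfold r4g
          refine Continuous.mul continuous_const ?_
          refine Continuous.rpow_const (by fun_prop) ?_
          intro x
          left
          positivity
        rw [lintegral_mul_const, lintegral_const_mul' _ _ ENNReal.ofReal_ne_top]
        exact (ENNReal.measurable_ofReal.comp
          (hc.comp (continuous_const.sub continuous_id)).measurable).const_mul _
    _ ≤ (ENNReal.ofReal (4 ^ q) * ENNReal.ofReal C) * G ^ q := by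
        gcongr
        exact hM a ha z
    _ = _ := by
        rw [← ENNReal.ofReal_mul (by positivity)]

end Helper85.BP.P
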