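import Mathlib

open MeasureTheory ProbabilityTheory Filter
open scoped ENNReal Topology

namespace Pool.Agent.Helper83.BRW

/-- The `n`-fold convolution power of `μ`: the law of a product of `n` i.i.d. `μ`-distributed
elements of the group `G`. -/
noncomputable def convPow {G : Type} [Group G] (μ : PMF G) : ℕ → PMF G
  | 0 => PMF.pure 1
  | n + 1 => (convPow μ n).bind fun x => μ.map fun y => x * y

/-- Renyi entropy of order `α ≠ 1` of a mass function `ν`. -/
noncomputable def renyi {G : Type} (α : ℝ) (ν : G → ℝ≥0∞) : EReal :=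
  (((1 - α)⁻¹ : ℝ) : EReal) * ENNReal.log (∑' g : {g : G // ν g ≠ 0}, ν g ^ α)

/-- Vertices of the Ulam-Harris tree are finite lists of child indices, the most recent index
first: the children of `u` are the vertices `i :: u`. `InTree N v` says that `v` belongs to the
tree in which `u` has exactly the `N u` children `i :: u` with `i < N u`. -/
def InTree (N : List ℕ → ℕ) : List ℕ → Prop
  | [] => True
  | i :: u => InTree N u ∧ i < N u

/-- Generation `n` of the tree. -/
def gen (N : List ℕ → ℕ) (n : ℕ) : Set (List ℕ) := {v | v.length = n ∧ InTree N v}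

/-- The position `ζ_{v_1} ζ_{v_2} ⋯ ζ_{v_n}` of the vertex `v = v_n` with ancestors
`v_1, ..., v_{n-1}`; the root sits at the identity. -/
def pos {G : Type} [Group G] (ζ : List ℕ → G) : List ℕ → G
  | [] => 1
  | i :: u => pos ζ u * ζ (i :: u)

/-- The empirical distribution of generation `n`. -/
noncomputable def empirical {G : Type} [Group G] (N : List ℕ → ℕ) (ζ : List ℕ → G) (n : ℕ)
    (x : G) : ℝ≥0∞ :=
  ({v | v ∈ gen N n ∧ pos ζ v = x}.ncard : ℝ≥0∞) / ((gen N n).ncard : ℝ≥0∞)

/-- A branching random walk on `G` with step law `μ` and offspring law `π`, realised on the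
probability space `(Ω, P)`: the offspring numbers `N u` are i.i.d. with law `π`, the displacements
`ζ u` are i.i.d. with law `μ`, and the two families are independent. -/
structure IsBRW {Ω G : Type} [MeasurableSpace Ω] [MeasurableSpace G]
    (P : Measure Ω) (μ : PMF G) (π : PMF ℕ) (N : List ℕ → Ω → ℕ) (ζ : List ℕ → Ω → G) :
    Prop where
  prob : IsProbabilityMeasure P
  meas_N : ∀ u, Measurable (N u)
  meas_ζ : ∀ u, Measurable (ζ u)
  law_N : ∀ u, P.map (N u) = π.toMeasure
  law_ζ : ∀ u, P.map (ζ u) = μ.toMeasure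
  indep_N : iIndepFun N P
  indep_ζ : iIndepFun ζ P
  indep : IndepFun (fun ω u => N u ω) (fun ω u => ζ u ω) P

/-- The assertion of Q1 for one fixed order `α`: for all groups, step laws and offspring laws as
in the setting, almost surely the normalised Renyi entropy of order `α` of the empirical
distribution converges to `log ρ` if `ρ ≤ exp (h(α,μ))` and to `h(α,μ)` otherwise, where
`h = h(α,μ)` is the limit of `H(α,μ^{*n})/n`. -/
def LimitFormula (α : ℝ) : Prop :=
  ∀ (G : Type) [Group G] [Infinite G] [Group.FG G] [MeasurableSpace G]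
    [DiscreteMeasurableSpace G] (μ : PMF G) (π : PMF ℕ),
    (∑' x, ENNReal.ofReal (Real.negMulLog (μ x).toReal)) ≠ ⊤ →
    π 0 = 0 → (∑' k : ℕ, (k : ℝ≥0∞) ^ 2 * π k) ≠ ⊤ → 1 < ∑' k : ℕ, (k : ℝ≥0∞) * π k →
    ∀ (Ω : Type) [MeasurableSpace Ω] (P : Measure Ω) (N : List ℕ → Ω → ℕ) (ζ : List ℕ → Ω → G),
    IsBRW P μ π N ζ →
    ∀ h : EReal, Tendsto (fun n : ℕ => renyi α (convPow μ n) / (n : EReal)) atTop (𝓝 h) →
    ∀ᵐ ω ∂P, Tendsto
      (fun n : ℕ => renyi α (empirical (fun u => N u ω) (fun u => ζ u ω) n) / (n : EReal)) atTop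
      (𝓝 (if ENNReal.log (∑' k : ℕ, (k : ℝ≥0∞) * π k) ≤ h
        then ENNReal.log (∑' k : ℕ, (k : ℝ≥0∞) * π k) else h))

end Pool.Agent.Helper83.BRW
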