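import Pool.Agent.Helper83.Brw3

open MeasureTheory ProbabilityTheory Filter FreeGroup
open scoped ENNReal Topology

namespace Pool.Agent.Helper83.BRW

open Pool.Agent.Helper83.FGr

variable {k : ℕ} [NeZero k]

variable {Ω : Type} [MeasurableSpace Ω] {P : Measure Ω} [IsProbabilityMeasure P]
  [MeasurableSpace (FreeGroup (Fin k))] [DiscreteMeasurableSpace (FreeGroup (Fin k))]
  [Countable (FreeGroup (Fin k))]
  {ζ : List ℕ → Ω → FreeGroup (Fin k)}

open Classical in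
lemma ae_far_le (hm : ∀ u, Measurable (ζ u)) (hi : iIndepFun ζ P)
    (hl : ∀ u, P.map (ζ u) = (srw k).toMeasure) (ρ : ℕ) (hρ : ρ ≠ 0) :
    ∀ᵐ ω ∂P, ∀ᶠ n in atTop,
      (∑ v ∈ T ρ n, if pos (fun u => ζ u ω) v ∈ far k n then (1 : ℝ≥0∞) else 0) /
        (ρ : ℝ≥0∞) ^ n ≤ ENNReal.ofReal (√(kap k)) ^ n := by
  have hκ := kap_pos k
  have hκ1 := kap_lt_one k
  set η := √(kap k) with hη
  have hη0 : 0 < η := Real.sqrt_pos.2 hκ
  have hη1 : η < 1 := by
    rw [hη, Real.sqrt_lt' one_pos]; simpa using hκ1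
  have hηη : η * η = kap k := Real.mul_self_sqrt hκ.le
  set f : ℕ → Ω → ℝ≥0∞ := fun n ω =>
    (∑ v ∈ T ρ n, if pos (fun u => ζ u ω) v ∈ far k n then (1 : ℝ≥0∞) else 0) /
        (ρ : ℝ≥0∞) ^ n with hf
  have hρn : ∀ n : ℕ, ((ρ : ℝ≥0∞) ^ n) ≠ 0 := fun n => pow_ne_zero _ (by simpa using hρ)
  have hρn' : ∀ n : ℕ, ((ρ : ℝ≥0∞) ^ n) ≠ ⊤ := fun n => ENNReal.pow_ne_top (by simp)
  have hmeas : ∀ (n : ℕ) (v : List ℕ), Measurable fun ω =>
      if pos (fun u => ζ u ω) v ∈ far k n then (1 : ℝ≥0∞) else 0 := by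
    intro n v
    exact (Measurable.of_discrete (f := fun x : FreeGroup (Fin k) =>
      if x ∈ far k n then (1 : ℝ≥0∞) else 0)).comp (measurable_pos hm v)
  have hfm : ∀ n, Measurable (f n) := by
    intro n
    simp only [hf, div_eq_mul_inv]
    exact (Finset.measurable_sum _ fun v _ => hmeas n v).mul_const _
  have hint : ∀ n, ∫⁻ ω, f n ω ∂P ≤ 2 * ENNReal.ofReal (kap k) ^ n := by
    intro n
    simp only [hf, div_eq_mul_inv]
    rw [lintegral_mul_const _ (Finset.measurable_sum _ fun v _ => hmeas n v),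
      lintegral_finsetSum _ fun v _ => hmeas n v]
    have : ∀ v ∈ T ρ n, ∫⁻ ω, (if pos (fun u => ζ u ω) v ∈ far k n then (1 : ℝ≥0∞) else 0) ∂P ≤
        2 * ENNReal.ofReal (kap k) ^ n := by
      intro v hv
      have hlen : v.length = n := (mem_T.1 hv).1
      have := lintegral_far_le hm hi hl v
      rwa [hlen] at this
    calc _ ≤ (∑ v ∈ T ρ n, 2 * ENNReal.ofReal (kap k) ^ n) * ((ρ : ℝ≥0∞) ^ n)⁻¹ := by
          gcongr with v hv; exact this v hv
      _ = _ := by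
          rw [Finset.sum_const, card_T, nsmul_eq_mul]
          push_cast
          rw [mul_comm, ← mul_assoc, ENNReal.inv_mul_cancel (hρn n) (hρn' n), one_mul]
  set s : ℕ → Set Ω := fun n => {ω | ENNReal.ofReal η ^ n ≤ f n ω} with hs
  have hε0 : ENNReal.ofReal η ≠ 0 := by
    rw [Ne, ENNReal.ofReal_eq_zero, not_le]; exact hη0
  have hP : ∀ n, P (s n) ≤ 2 * ENNReal.ofReal η ^ n := by
    intro n
    refine (meas_ge_le_lintegral_div (hfm n).aemeasurable (pow_ne_zero n hε0)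
      (ENNReal.pow_ne_top ENNReal.ofReal_ne_top)).trans ?_
    apply ENNReal.div_le_of_le_mul
    calc _ ≤ 2 * ENNReal.ofReal (kap k) ^ n := hint n
      _ = _ := by
        rw [← hηη, ENNReal.ofReal_mul hη0.le]; ring
  have hsum : ∑' n, P (s n) ≠ ⊤ := by
    refine ne_top_of_le_ne_top ?_ (ENNReal.tsum_le_tsum hP)
    rw [ENNReal.tsum_mul_left]
    refine ENNReal.mul_ne_top (by simp) ?_
    rw [ENNReal.tsum_geometric]
    rw [Ne, ENNReal.inv_eq_top, tsub_eq_zero_iff_le, not_le]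
    rw [← ENNReal.ofReal_one]
    exact (ENNReal.ofReal_lt_ofReal_iff one_pos).2 hη1
  filter_upwards [ae_eventually_notMem hsum] with ω hω
  filter_upwards [hω] with n hn
  simp only [hs, Set.mem_ofPred_eq, not_le] at hn
  exact hn.le

open Classical in
/-- almost surely the Renyi sums of the empirical distribution are exponentially smaller than
`rho^{(1-alpha) n}` -/
lemma ae_S_le (hk : 2 ≤ k) {α : ℝ} (h0 : 0 ≤ α) (h1 : α < 1)
    (hm : ∀ u, Measurable (ζ u)) (hi : iIndepFun ζ P)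
    (hl : ∀ u, P.map (ζ u) = (srw k).toMeasure) (ρ : ℕ) (hρ : ρ ≠ 0)
    (hρk : ((2 * k - 1 : ℕ) : ℝ) ^ (2 * k - 1) < (ρ : ℝ) ^ (2 * k)) :
    ∃ β : ℝ, 0 < β ∧ β < (ρ : ℝ) ^ (1 - α) ∧
    ∀ᵐ ω ∂P, ∀ᶠ n in atTop,
      S α (empirical (fun _ => ρ) (fun u => ζ u ω) n) ≤
        ENNReal.ofReal ((2 * k + 2) * β ^ n) := by
  have hα : 0 < 1 - α := by linarith
  have hκ := kap_pos k
  have hκ1 := kap_lt_one k
  have hρ0 : (0 : ℝ) < ρ := by exact_mod_cast Nat.pos_of_ne_zero hρ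
  set η := √(kap k) with hη
  have hη0 : 0 < η := Real.sqrt_pos.2 hκ
  have hη1 : η < 1 := by
    rw [hη, Real.sqrt_lt' one_pos]; simpa using hκ1
  have hk1 : (1 : ℝ) ≤ k := by exact_mod_cast (by omega : 1 ≤ k)
  set Q : ℝ := ((2 * k - 1 : ℕ) : ℝ) with hQ
  have hQe : Q = 2 * k - 1 := by
    rw [hQ, Nat.cast_sub (by omega)]; push_cast; ring
  have hQ1 : 1 ≤ Q := by rw [hQe]; linarith
  have hQ0 : 0 < Q := by linarith
  set s : ℝ := Q ^ (Q / (2 * k)) with hs
  have hs0 : 0 < s := Real.rpow_pos_of_pos hQ0 _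
  have hspow : s ^ (2 * k) = Q ^ (2 * k - 1) := by
    rw [hs, ← Real.rpow_natCast, ← Real.rpow_mul hQ0.le, ← Real.rpow_natCast Q (2 * k - 1)]
    congr 1
    rw [← hQ]; push_cast; field_simp
  have hsρ : s < ρ := by
    by_contra hcon
    push Not at hcon
    have : (ρ : ℝ) ^ (2 * k) ≤ s ^ (2 * k) := pow_le_pow_left₀ hρ0.le hcon _
    rw [hspow] at this
    linarith
  refine ⟨max (s ^ (1 - α)) ((ρ : ℝ) ^ (1 - α) * η), ?_, ?_, ?_⟩
  · exact lt_max_of_lt_left (Real.rpow_pos_of_pos hs0 _)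
  · apply max_lt
    · exact Real.rpow_lt_rpow hs0.le hsρ hα
    · have : 0 < (ρ : ℝ) ^ (1 - α) := Real.rpow_pos_of_pos hρ0 _
      nlinarith
  set β := max (s ^ (1 - α)) ((ρ : ℝ) ^ (1 - α) * η) with hβ
  filter_upwards [ae_far_le hm hi hl ρ hρ] with ω hω
  filter_upwards [hω] with n hn
  set m := ((2 * k - 1) * n) / (2 * k) with hmdef
  have hSle := S_empirical_le h0 h1.le hρ (fun u => ζ u ω) n (ball k m) (ENNReal.ofReal (s ^ n))
  refine hSle.trans ?_
  have hsn : 0 < s ^ n := by positivity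
  -- first term
  have hcard : ((ball k m).card : ℝ) ≤ 2 * k * s ^ n := by
    have h2 : ((ball k m).card : ℝ) ≤ 2 * k * Q ^ m := by
      rw [hQ]; exact_mod_cast card_ball_le hk m
    have h3 : Q ^ m ≤ s ^ n := by
      rw [hs, ← Real.rpow_natCast, ← Real.rpow_natCast, ← Real.rpow_mul hQ0.le]
      apply Real.rpow_le_rpow_of_exponent_le hQ1
      have h4 : m * (2 * k) ≤ (2 * k - 1) * n := Nat.div_mul_le_self _ _
      have h5 : (m : ℝ) * (2 * k) ≤ Q * n := by rw [hQ]; exact_mod_cast h4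
      rw [div_mul_eq_mul_div, le_div_iff₀ (by linarith)]
      exact h5
    calc ((ball k m).card : ℝ) ≤ 2 * k * Q ^ m := h2
      _ ≤ _ := by gcongr
  have t1 : ((ball k m).card : ℝ≥0∞) * ((ENNReal.ofReal (s ^ n))⁻¹) ^ α ≤
      ENNReal.ofReal (2 * k * β ^ n) := by
    rw [← ENNReal.ofReal_inv_of_pos hsn, ENNReal.ofReal_rpow_of_pos (by positivity),
      ← ENNReal.ofReal_natCast, ← ENNReal.ofReal_mul (by positivity)]
    apply ENNReal.ofReal_le_ofReal
    calc ((ball k m).card : ℝ) * ((s ^ n)⁻¹) ^ α ≤ 2 * k * s ^ n * ((s ^ n)⁻¹) ^ α := by gcongr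
      _ = 2 * k * (s ^ (1 - α)) ^ n := by
        rw [mul_assoc]; congr 1
        rw [Real.inv_rpow hsn.le, ← Real.rpow_neg hsn.le]
        nth_rewrite 1 [← Real.rpow_one (s ^ n)]
        rw [← Real.rpow_add hsn, ← Real.rpow_natCast s n, ← Real.rpow_natCast (s ^ (1 - α)) n,
          ← Real.rpow_mul hs0.le, ← Real.rpow_mul hs0.le]
        congr 1; ring
      _ ≤ _ := by
        gcongr
        exact le_max_left _ _
  have t2 : ENNReal.ofReal (s ^ n) ^ (1 - α) ≤ ENNReal.ofReal (β ^ n) := by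
    rw [ENNReal.ofReal_rpow_of_pos hsn]
    apply ENNReal.ofReal_le_ofReal
    calc (s ^ n) ^ (1 - α) = (s ^ (1 - α)) ^ n := by
          rw [← Real.rpow_natCast s n, ← Real.rpow_natCast (s ^ (1 - α)) n,
          ← Real.rpow_mul hs0.le, ← Real.rpow_mul hs0.le]
          congr 1; ring
      _ ≤ _ := by
        gcongr
        exact le_max_left _ _
  have t3 : ((ρ : ℝ≥0∞) ^ n) ^ (1 - α) *
        ((∑ v ∈ T ρ n, if pos (fun u => ζ u ω) v ∈ ball k m then (0 : ℝ≥0∞) else 1) /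
          (ρ : ℝ≥0∞) ^ n) ≤ ENNReal.ofReal (β ^ n) := by
    have h5 : (∑ v ∈ T ρ n, if pos (fun u => ζ u ω) v ∈ ball k m then (0 : ℝ≥0∞) else 1) /
          (ρ : ℝ≥0∞) ^ n ≤ ENNReal.ofReal η ^ n := by
      refine le_trans ?_ hn
      gcongr with v hv
      by_cases hb : pos (fun u => ζ u ω) v ∈ ball k m
      · rw [if_pos hb]; positivity
      · rw [if_neg hb, if_pos]
        by_contra hfar
        apply hb
        apply mem_ball
        simp only [far, Set.mem_ofPred_eq, not_lt] at hfar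
        rw [hmdef, Nat.le_div_iff_mul_le (by omega)]
        rw [mul_comm]; exact hfar
    calc _ ≤ ((ρ : ℝ≥0∞) ^ n) ^ (1 - α) * ENNReal.ofReal η ^ n := by gcongr
      _ = ENNReal.ofReal (((ρ : ℝ) ^ (1 - α) * η) ^ n) := by
          rw [← ENNReal.ofReal_natCast, ← ENNReal.ofReal_pow hρ0.le,
            ENNReal.ofReal_rpow_of_pos (by positivity), ← ENNReal.ofReal_pow hη0.le,
            ← ENNReal.ofReal_mul (by positivity)]
          congr 1
          rw [mul_pow]; congr 1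
          rw [← Real.rpow_natCast (ρ : ℝ) n, ← Real.rpow_natCast ((ρ : ℝ) ^ (1 - α)) n,
            ← Real.rpow_mul hρ0.le, ← Real.rpow_mul hρ0.le]
          congr 1; ring
      _ ≤ _ := by
          apply ENNReal.ofReal_le_ofReal
          gcongr
          exact le_max_right _ _
  have hβ0 : 0 < β := lt_max_of_lt_left (Real.rpow_pos_of_pos hs0 _)
  calc _ ≤ ENNReal.ofReal (2 * k * β ^ n) + ENNReal.ofReal (β ^ n) + ENNReal.ofReal (β ^ n) :=
        add_le_add (add_le_add t1 t2) t3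
    _ = _ := by
        rw [← ENNReal.ofReal_add (by positivity) (by positivity),
          ← ENNReal.ofReal_add (by positivity) (by positivity)]
        congr 1; ring

end Pool.Agent.Helper83.BRW
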