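import Pool.Agent.Helper83.BRWDefs
import Pool.Agent.Helper83.Brw4

open MeasureTheory ProbabilityTheory Filter FreeGroup
open scoped ENNReal Topology

namespace Pool.Agent.Helper83.BRWMain

open Pool.Agent.Helper83.BRW Pool.Agent.Helper83.FGr

lemma iIndepFun_const' {Ω ι : Type} [MeasurableSpace Ω] (P : Measure Ω) [IsProbabilityMeasure P]
    (c : ℕ) : iIndepFun (fun (_ : ι) (_ : Ω) => c) P := by
  rw [iIndepFun_iff_measure_inter_preimage_eq_mul]
  intro S sets _
  by_cases h : ∀ i ∈ S, c ∈ sets i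
  · have h1 : ∀ i ∈ S, (fun _ : Ω => c) ⁻¹' sets i = Set.univ := by
      intro i hi; ext; simp [h i hi]
    rw [Finset.prod_congr rfl fun i hi => by rw [h1 i hi]]
    rw [Set.iInter₂_congr h1]
    simp
  · push Not at h
    obtain ⟨i, hi, hc⟩ := h
    have h1 : (fun _ : Ω => c) ⁻¹' sets i = ∅ := by
      ext; simp [hc]
    rw [Finset.prod_eq_zero hi (by rw [h1]; simp)]
    apply measure_mono_null (Set.iInter₂_subset i hi)
    rw [h1]; simp

/-- choice of parameters -/
lemma exists_params {α : ℝ} (h1 : α < 1) :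
    ∃ k ρ : ℕ, 2 ≤ k ∧ 2 ≤ ρ ∧
      ((2 * k - 1 : ℕ) : ℝ) ^ (2 * k - 1) < (ρ : ℝ) ^ (2 * k) ∧
      (α : ℝ) + (1 - α) * ρ + (2 * k - 1) * α ≤ 2 * k - 1 := by
  have hα : 0 < 1 - α := by linarith
  obtain ⟨j, hj⟩ := exists_nat_gt (α / (1 - α))
  obtain ⟨e, he⟩ := exists_nat_gt (Real.exp (j + 1))
  set k := e + j ^ 2 + j + 2 with hk
  refine ⟨k, 2 * k - 1 - j, by omega, by omega, ?_, ?_⟩
  · set ρ := 2 * k - 1 - j with hρ
    have hρk : k ≤ ρ := by omega
    have hQ : 2 * k - 1 = ρ + j := by omega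
    rw [hQ]
    have h2k : 2 * k = (ρ + j) + 1 := by omega
    rw [h2k, pow_succ]
    have hρ0 : (0 : ℝ) < ρ := by
      have : 0 < ρ := by omega
      exact_mod_cast this
    have hj2 : (j : ℝ) ^ 2 ≤ ρ := by
      have : j ^ 2 ≤ ρ := by omega
      exact_mod_cast this
    have heρ : Real.exp (j + 1) < ρ := by
      have : (e : ℝ) ≤ ρ := by
        have : e ≤ ρ := by omega
        exact_mod_cast this
      linarith
    have h3 : ((ρ + j : ℕ) : ℝ) = ρ * (1 + j / ρ) := by
      push_cast; field_simp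
    rw [h3, mul_pow]
    have h4 : (1 + (j : ℝ) / ρ) ^ (ρ + j) ≤ Real.exp (j + 1) := by
      have h5 : 1 + (j : ℝ) / ρ ≤ Real.exp (j / ρ) := by
        have := Real.add_one_le_exp ((j : ℝ) / ρ)
        linarith
      calc (1 + (j : ℝ) / ρ) ^ (ρ + j) ≤ (Real.exp (j / ρ)) ^ (ρ + j) := by
            gcongr
        _ = Real.exp ((ρ + j : ℕ) * (j / ρ)) := by rw [Real.exp_nat_mul]
        _ ≤ Real.exp (j + 1) := by
            apply Real.exp_le_exp.2
            push_cast
            have : (j : ℝ) ^ 2 / ρ ≤ 1 := (div_le_one hρ0).2 hj2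
            have h6 : ((ρ : ℝ) + j) * (j / ρ) = j + j ^ 2 / ρ := by field_simp
            rw [h6]; linarith
    have h7 : (0 : ℝ) < (ρ : ℝ) ^ (ρ + j) := by positivity
    nlinarith
  · have hjk : j + 1 ≤ 2 * k := by omega
    have h2 : ((2 * k - 1 - j : ℕ) : ℝ) = 2 * k - 1 - j := by
      rw [Nat.cast_sub (by omega), Nat.cast_sub (by omega)]; push_cast; ring
    rw [h2]
    rw [div_lt_iff₀ hα] at hj
    nlinarith

/-- **Disproof of Q1.** For every `α ∈ [0,1)` the limit formula for the Renyi entropy of order `α`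
of branching random walk empirical measures fails. -/
theorem renyi_fails :
    ∀ α : ℝ, 0 ≤ α → α < 1 → ¬ LimitFormula α := by
  classical
  intro α h0 h1 hLF
  obtain ⟨k, ρ, hk, hρ2, hρk, hconv⟩ := exists_params h1
  have : NeZero k := ⟨by omega⟩
  let _ : MeasurableSpace (FreeGroup (Fin k)) := ⊤
  have : DiscreteMeasurableSpace (FreeGroup (Fin k)) := ⟨fun _ => trivial⟩
  have hα : 0 < 1 - α := by linarith
  have hρ0 : ρ ≠ 0 := by omega
  have hρpos : (0 : ℝ) < ρ := by exact_mod_cast Nat.pos_of_ne_zero hρ0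
  have hkR : (2 : ℝ) ≤ k := by exact_mod_cast hk
  -- realisation
  obtain ⟨Ω, mΩ, P, ζ, hm, hl, hi, hP⟩ := exists_iid (List ℕ) (srw k).toMeasure
  have hl' : ∀ u, P.map (ζ u) = (srw k).toMeasure := fun u => (hl u).map_eq
  have hbrw : IsBRW P (srw k) (PMF.pure ρ) (fun _ _ => ρ) ζ :=
    { prob := hP
      meas_N := fun u => measurable_const
      meas_ζ := hm
      law_N := fun u => by
        rw [Measure.map_const, measure_univ, one_smul, PMF.toMeasure_pure]
      law_ζ := hl'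
      indep_N := iIndepFun_const' P ρ
      indep_ζ := hi
      indep := indepFun_const_left (fun _ => ρ) (fun ω u => ζ u ω) }
  have hmean : ∑' j : ℕ, (j : ℝ≥0∞) * (PMF.pure ρ) j = (ρ : ℝ≥0∞) := by
    rw [tsum_eq_single ρ]
    · simp
    · intro b hb; simp [hb]
  have hsq : (∑' j : ℕ, (j : ℝ≥0∞) ^ 2 * (PMF.pure ρ) j) ≠ ⊤ := by
    rw [tsum_eq_single ρ]
    · simp
    · intro b hb; simp [hb]
  -- asymptotic entropy
  obtain ⟨h, hh, hlim⟩ := exists_h h0 h1 (srw k) (S_srw_ne_top h0 h1.le)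
    (Real.log (2 * k - 1) - α * Real.log (2 * k)) (u_ge h0 h1.le)
  have hlogh : Real.log ρ ≤ h := by
    refine le_trans ?_ hh
    rw [inv_mul_eq_div, le_div_iff₀ hα]
    have hcc := strictConcaveOn_log_Ioi.concaveOn.2 (x := (ρ : ℝ)) hρpos
      (y := 2 * (k : ℝ)) (by show (0 : ℝ) < 2 * k; linarith) hα.le h0 (by ring)
    simp only [smul_eq_mul] at hcc
    have h3 : Real.log ((1 - α) * ρ + α * (2 * k)) ≤ Real.log (2 * k - 1) := by
      apply Real.log_le_log
      · positivity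
      · nlinarith
    linarith
  have hres := hLF (FreeGroup (Fin k)) (srw k) (PMF.pure ρ) shannon_srw
    (by simp [PMF.pure_apply, hρ0.symm]) hsq
    (by rw [hmean]; exact_mod_cast (by omega : 1 < ρ)) Ω P (fun _ _ => ρ) ζ hbrw h hlim
  rw [hmean] at hres
  have hlogρ : ENNReal.log (ρ : ℝ≥0∞) = ((Real.log ρ : ℝ) : EReal) := by
    rw [ENNReal.log_pos_real (by simpa using hρ0) (by simp)]
    simp
  rw [hlogρ, if_pos (by exact_mod_cast hlogh)] at hres
  obtain ⟨β, hβ0, hβ, hae⟩ := ae_S_le (P := P) hk h0 h1 hm hi hl' ρ hρ0 hρk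
  obtain ⟨ω, hω1, hω2⟩ := (hres.and hae).exists
  -- upper bound tends to something smaller
  have hup : Tendsto (fun n : ℕ => ((1 - α)⁻¹ * (Real.log (2 * k + 2) / n + Real.log β) : ℝ))
      atTop (𝓝 ((1 - α)⁻¹ * (0 + Real.log β))) :=
    ((tendsto_const_div_atTop_nhds_zero_nat _).add_const _).const_mul _
  have hup' := (continuous_coe_real_ereal.tendsto _).comp hup
  have hle : ((Real.log ρ : ℝ) : EReal) ≤ (((1 - α)⁻¹ * (0 + Real.log β) : ℝ) : EReal) := by
    refine le_of_tendsto_of_tendsto hω1 hup' ?_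
    filter_upwards [hω2, eventually_gt_atTop 0] with n hn hn0
    have hn0' : (0 : ℝ) < n := Nat.cast_pos.2 hn0
    simp only [Function.comp_apply]
    have hB : (0 : ℝ) < (2 * k + 2) * β ^ n := by positivity
    have hlogS : ENNReal.log (S α (empirical (fun _ => ρ) (fun u => ζ u ω) n)) ≤
        ((Real.log (2 * k + 2) + n * Real.log β : ℝ) : EReal) := by
      refine (ENNReal.log_monotone hn).trans (le_of_eq ?_)
      rw [ENNReal.log_pos_real (by rw [Ne, ENNReal.ofReal_eq_zero, not_le]; exact hB)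
        ENNReal.ofReal_ne_top, ENNReal.toReal_ofReal hB.le,
        Real.log_mul (by positivity) (by positivity), Real.log_pow]
    have hcoe : ((n : ℕ) : EReal) = (((n : ℕ) : ℝ) : EReal) := by simp
    rw [renyi_eq, hcoe]
    calc (((1 - α)⁻¹ : ℝ) : EReal) * ENNReal.log (S α (empirical (fun _ => ρ)
          (fun u => ζ u ω) n)) / ((n : ℝ) : EReal)
        ≤ (((1 - α)⁻¹ : ℝ) : EReal) * ((Real.log (2 * k + 2) + n * Real.log β : ℝ) : EReal) /
          ((n : ℝ) : EReal) := by
          apply EReal.div_le_div_right_of_nonneg (by exact_mod_cast hn0'.le)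
          exact mul_le_mul_of_nonneg_left hlogS (by exact_mod_cast (inv_pos.2 hα).le)
      _ = _ := by
          rw [← EReal.coe_mul, ← EReal.coe_div]
          congr 1
          field_simp
  have hle' : Real.log ρ ≤ (1 - α)⁻¹ * (0 + Real.log β) := by exact_mod_cast hle
  have hlt : Real.log β < (1 - α) * Real.log ρ := by
    rw [← Real.log_rpow hρpos]
    exact Real.log_lt_log hβ0 hβ
  rw [zero_add, inv_mul_eq_div, le_div_iff₀ hα] at hle'
  linarith

end Pool.Agent.Helper83.BRWMain
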