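import Pool.Agent.Helper83.Srw

open MeasureTheory ProbabilityTheory Filter FreeGroup
open scoped ENNReal Topology

namespace Pool.Agent.Helper83.BRW

section gen

variable {G : Type} [Group G]

/-- positions depend only on the nonempty suffixes -/
lemma pos_congr {ζ ζ' : List ℕ → G} (v : List ℕ) (h : ∀ w, w <:+ v → ζ w = ζ' w) :
    pos ζ v = pos ζ' v := by
  induction v with
  | nil => rfl
  | cons i u ih =>
    simp only [pos]
    rw [ih fun w hw => h w (hw.trans (List.suffix_cons i u)), h _ List.suffix_rfl]

variable [Countable G] [MeasurableSpace G] [DiscreteMeasurableSpace G]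
variable {Ω : Type} [MeasurableSpace Ω] {P : Measure Ω} [IsProbabilityMeasure P]
  {ζ : List ℕ → Ω → G}

lemma measurable_pos (hm : ∀ u, Measurable (ζ u)) (v : List ℕ) :
    Measurable fun ω => pos (fun u => ζ u ω) v := by
  induction v with
  | nil => exact measurable_const
  | cons i u ih =>
    simp only [pos]
    have h : Measurable (fun p : G × G => p.1 * p.2) := Measurable.of_discrete
    exact h.comp (ih.prodMk (hm _))

lemma indep_pos (hm : ∀ u, Measurable (ζ u)) (hi : iIndepFun ζ P) (i : ℕ) (u : List ℕ) :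
    IndepFun (fun ω => pos (fun w => ζ w ω) u) (ζ (i :: u)) P := by
  classical
  set A : Finset (List ℕ) := u.tails.toFinset with hA
  have hmem : ∀ w, w <:+ u → w ∈ A := by
    intro w hw
    rw [hA, List.mem_toFinset, List.mem_tails]
    exact hw
  have hdisj : Disjoint A {i :: u} := by
    rw [Finset.disjoint_singleton_right, hA, List.mem_toFinset, List.mem_tails]
    intro h
    have := h.length_le
    simp at this
  have h := hi.indepFun_finset A {i :: u} hdisj hm
  let f : (A → G) → G := fun g => pos (fun w => if hw : w ∈ A then g ⟨w, hw⟩ else 1) u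
  let g : (({i :: u} : Finset (List ℕ)) → G) → G := fun g => g ⟨i :: u, by simp⟩
  have hf : Measurable f := Measurable.of_discrete
  have hg : Measurable g := Measurable.of_discrete
  have h2 := h.comp hf hg
  have e1 : (f ∘ fun ω (w : A) => ζ w ω) = fun ω => pos (fun w => ζ w ω) u := by
    funext ω
    simp only [Function.comp_apply, f]
    apply pos_congr
    intro w hw
    rw [dif_pos (hmem w hw)]
  have e2 : (g ∘ fun ω (w : ({i :: u} : Finset (List ℕ))) => ζ w ω) = ζ (i :: u) := by
    funext ω
    simp [g]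
  rw [e1, e2] at h2
  exact h2

/-- exponential moment bound along the tree -/
lemma lintegral_pos_le (μ : PMF G) (hm : ∀ u, Measurable (ζ u)) (hi : iIndepFun ζ P)
    (hl : ∀ u, P.map (ζ u) = μ.toMeasure) (F : G → ℝ≥0∞) (Λ : ℝ≥0∞)
    (hF : ∀ x, ∑' y, μ y * F (x * y) ≤ Λ * F x) (v : List ℕ) :
    ∫⁻ ω, F (pos (fun u => ζ u ω) v) ∂P ≤ Λ ^ v.length * F 1 := by
  induction v with
  | nil => simp [pos]
  | cons i u ih =>
    have hind := indep_pos hm hi i u
    have hmp := measurable_pos (ζ := ζ) hm u
    have hmap := (indepFun_iff_map_prod_eq_prod_map_map hmp.aemeasurable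
      (hm (i :: u)).aemeasurable).1 hind
    have hFm : Measurable (fun p : G × G => F (p.1 * p.2)) := Measurable.of_discrete
    have e1 : ∫⁻ ω, F (pos (fun w => ζ w ω) (i :: u)) ∂P =
        ∫⁻ p, F (p.1 * p.2) ∂(P.map fun ω => (pos (fun w => ζ w ω) u, ζ (i :: u) ω)) := by
      rw [lintegral_map hFm (hmp.prodMk (hm _))]
      rfl
    rw [e1, hmap, hl, lintegral_prod _ hFm.aemeasurable]
    have e2 : ∀ x : G, ∫⁻ y, F (x * y) ∂μ.toMeasure = ∑' y, μ y * F (x * y) := by
      intro x
      rw [lintegral_countable' ]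
      refine tsum_congr fun y => ?_
      rw [PMF.toMeasure_apply_singleton _ _ (MeasurableSet.of_discrete), mul_comm]
    simp only [e2]
    rw [lintegral_map Measurable.of_discrete hmp]
    calc _ ≤ ∫⁻ ω, Λ * F (pos (fun w => ζ w ω) u) ∂P := lintegral_mono fun ω => hF _
      _ = Λ * ∫⁻ ω, F (pos (fun w => ζ w ω) u) ∂P := by
          rw [lintegral_const_mul]
          exact (Measurable.of_discrete : Measurable F).comp hmp
      _ ≤ Λ * (Λ ^ u.length * F 1) := by gcongr
      _ = _ := by rw [List.length_cons, pow_succ]; ring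

end gen

end Pool.Agent.Helper83.BRW
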