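import Pool.Agent.Helper83.Brw1

open MeasureTheory ProbabilityTheory Filter FreeGroup
open scoped ENNReal Topology

namespace Pool.Agent.Helper83.BRW

section det

/-- generation n of the rho-ary tree -/
def T (ρ : ℕ) : ℕ → Finset (List ℕ)
  | 0 => {[]}
  | n + 1 => (Finset.range ρ ×ˢ T ρ n).image fun p => p.1 :: p.2

lemma mem_T {ρ n : ℕ} {v : List ℕ} : v ∈ T ρ n ↔ v ∈ gen (fun _ => ρ) n := by
  induction n generalizing v with
  | zero =>
    simp only [T, Finset.mem_singleton, gen, Set.mem_ofPred_eq]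
    constructor
    · rintro rfl; exact ⟨rfl, trivial⟩
    · rintro ⟨h, -⟩; exact List.length_eq_zero_iff.1 h
  | succ n ih =>
    simp only [T, Finset.mem_image, Finset.mem_product, Finset.mem_range, Prod.exists, gen,
      Set.mem_ofPred_eq]
    constructor
    · rintro ⟨i, u, ⟨hi, hu⟩, rfl⟩
      obtain ⟨h1, h2⟩ := ih.1 hu
      exact ⟨by simp [h1], h2, hi⟩
    · rintro ⟨h1, h2⟩
      rcases v with _ | ⟨i, u⟩
      · simp at h1
      · exact ⟨i, u, ⟨h2.2, ih.2 ⟨by simpa using h1, h2.1⟩⟩, rfl⟩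

lemma gen_eq (ρ n : ℕ) : gen (fun _ => ρ) n = ↑(T ρ n) := by
  ext v; rw [Finset.mem_coe, mem_T]

lemma card_T (ρ n : ℕ) : (T ρ n).card = ρ ^ n := by
  induction n with
  | zero => simp [T]
  | succ n ih =>
    rw [T, Finset.card_image_of_injective, Finset.card_product, ih, Finset.card_range, pow_succ,
      mul_comm]
    rintro ⟨a, b⟩ ⟨c, d⟩ h
    simpa using h

variable {G : Type} [Group G] [DecidableEq G]

lemma empirical_eq (ρ : ℕ) (ζ : List ℕ → G) (n : ℕ) (x : G) :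
    empirical (fun _ => ρ) ζ n x =
      (∑ v ∈ T ρ n, if pos ζ v = x then (1 : ℝ≥0∞) else 0) / (ρ : ℝ≥0∞) ^ n := by
  rw [empirical, gen_eq, Set.ncard_coe_finset, card_T]
  have : {v | v ∈ (↑(T ρ n) : Set (List ℕ)) ∧ pos ζ v = x} =
      ↑((T ρ n).filter fun v => pos ζ v = x) := by
    ext v; simp
  rw [this, Set.ncard_coe_finset, Finset.card_filter]
  push_cast
  rfl

lemma tsum_empirical (ρ : ℕ) (ζ : List ℕ → G) (n : ℕ) (w : G → ℝ≥0∞) :
    ∑' x, empirical (fun _ => ρ) ζ n x * w x =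
      (∑ v ∈ T ρ n, w (pos ζ v)) / (ρ : ℝ≥0∞) ^ n := by
  simp only [empirical_eq, div_eq_mul_inv, Finset.sum_mul]
  rw [Summable.tsum_finsetSum (fun _ _ => ENNReal.summable)]
  refine Finset.sum_congr rfl fun v _ => ?_
  rw [tsum_eq_single (pos ζ v)]
  · simp [mul_comm]
  · intro b hb
    rw [if_neg hb.symm]; simp

lemma rpow_le_of_inv_le {t σ : ℝ≥0∞} {α : ℝ} (h1 : α ≤ 1) (ht0 : t ≠ 0) (ht : t ≠ ⊤)
    (h : t⁻¹ ≤ σ) : t ^ α ≤ t * σ ^ (1 - α) := by
  have e : t ^ α = t * (t⁻¹) ^ (1 - α) := by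
    rw [ENNReal.inv_rpow, ← ENNReal.rpow_neg]
    nth_rewrite 2 [← ENNReal.rpow_one t]
    rw [← ENNReal.rpow_add _ _ ht0 ht]
    congr 1; ring
  rw [e]
  gcongr

lemma S_empirical_le {α : ℝ} (h0 : 0 ≤ α) (h1 : α ≤ 1) {ρ : ℕ} (hρ : ρ ≠ 0) (ζ : List ℕ → G)
    (n : ℕ) (B : Finset G) (σ : ℝ≥0∞) :
    S α (empirical (fun _ => ρ) ζ n) ≤ B.card * (σ⁻¹) ^ α + σ ^ (1 - α) +
      ((ρ : ℝ≥0∞) ^ n) ^ (1 - α) *
        ((∑ v ∈ T ρ n, if pos ζ v ∈ B then (0 : ℝ≥0∞) else 1) / (ρ : ℝ≥0∞) ^ n) := by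
  have hρn : ((ρ : ℝ≥0∞) ^ n) ≠ 0 := pow_ne_zero _ (by simpa using hρ)
  have hρn' : ((ρ : ℝ≥0∞) ^ n) ≠ ⊤ := ENNReal.pow_ne_top (by simp)
  set M := empirical (fun _ => ρ) ζ n with hM
  have hle1 : ∀ x, M x ≤ 1 := by
    intro x
    rw [hM, empirical_eq]
    apply ENNReal.div_le_of_le_mul
    rw [one_mul]
    calc _ ≤ ∑ v ∈ T ρ n, (1 : ℝ≥0∞) := Finset.sum_le_sum fun v _ => by split_ifs <;> simp
      _ = _ := by rw [Finset.sum_const, card_T]; simp
  have hge : ∀ x, M x ≠ 0 → (M x)⁻¹ ≤ (ρ : ℝ≥0∞) ^ n := by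
    intro x hx
    rw [hM, empirical_eq] at hx ⊢
    rw [ENNReal.inv_div (Or.inl hρn') (Or.inl hρn)]
    have hx' : (∑ v ∈ T ρ n, if pos ζ v = x then (1 : ℝ≥0∞) else 0) ≠ 0 := by
      intro h; rw [h] at hx; simp at hx
    have h1' : 1 ≤ (∑ v ∈ T ρ n, if pos ζ v = x then (1 : ℝ≥0∞) else 0) := by
      rw [Ne, Finset.sum_eq_zero_iff] at hx'
      push Not at hx'
      obtain ⟨v, hv, hne⟩ := hx'
      have : pos ζ v = x := by
        by_contra h; simp [h] at hne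
      calc (1 : ℝ≥0∞) = if pos ζ v = x then (1 : ℝ≥0∞) else 0 := by simp [this]
        _ ≤ _ := Finset.single_le_sum (f := fun v => if pos ζ v = x then (1 : ℝ≥0∞) else 0)
            (fun _ _ => by positivity) hv
    exact ENNReal.div_le_of_le_mul (by
      calc (ρ : ℝ≥0∞) ^ n = ρ ^ n * 1 := by ring
        _ ≤ _ := by gcongr)
  have key : ∀ x, phi α (M x) ≤ (if x ∈ B then (σ⁻¹) ^ α else 0) + M x * σ ^ (1 - α) +
      ((ρ : ℝ≥0∞) ^ n) ^ (1 - α) * (M x * if x ∈ B then 0 else 1) := by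
    intro x
    unfold phi
    by_cases hx0 : M x = 0
    · simp [hx0]
    rw [if_neg hx0]
    have hxt : M x ≠ ⊤ := ne_top_of_le_ne_top (by simp) (hle1 x)
    by_cases hxB : x ∈ B
    · rw [if_pos hxB, if_pos hxB]
      refine le_trans ?_ (le_self_add)
      by_cases hc : M x ≤ σ⁻¹
      · exact (ENNReal.rpow_le_rpow hc h0).trans le_self_add
      · refine (rpow_le_of_inv_le h1 hx0 hxt ?_).trans le_add_self
        rw [ENNReal.inv_le_iff_inv_le]
        exact (not_le.1 hc).le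
    · rw [if_neg hxB, if_neg hxB, mul_one]
      refine le_trans ?_ le_add_self
      rw [mul_comm]
      exact rpow_le_of_inv_le h1 hx0 hxt (hge x hx0)
  calc S α M ≤ ∑' x, ((if x ∈ B then (σ⁻¹) ^ α else 0) + M x * σ ^ (1 - α) +
      ((ρ : ℝ≥0∞) ^ n) ^ (1 - α) * (M x * if x ∈ B then 0 else 1)) := ENNReal.tsum_le_tsum key
    _ = (∑' x, if x ∈ B then (σ⁻¹) ^ α else 0) + (∑' x, M x * σ ^ (1 - α)) +
      ((ρ : ℝ≥0∞) ^ n) ^ (1 - α) * ∑' x, (M x * if x ∈ B then 0 else 1) := by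
        rw [ENNReal.tsum_add, ENNReal.tsum_add, ENNReal.tsum_mul_left]
    _ ≤ _ := by
        refine add_le_add (add_le_add ?_ ?_) ?_
        · rw [tsum_eq_sum (s := B)]
          · rw [Finset.sum_congr rfl fun x hx => if_pos hx, Finset.sum_const, nsmul_eq_mul]
          · intro b hb; rw [if_neg hb]
        · rw [hM, tsum_empirical, Finset.sum_const, card_T, nsmul_eq_mul]
          push_cast
          rw [mul_comm, mul_div_assoc, ENNReal.div_self hρn hρn', mul_one]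
        · rw [hM, tsum_empirical]

end det

end Pool.Agent.Helper83.BRW
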