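import Pool.Agent.Helper83.Brw2

open MeasureTheory ProbabilityTheory Filter FreeGroup
open scoped ENNReal Topology

namespace Pool.Agent.Helper83.BRW

open Pool.Agent.Helper83.FGr

variable {k : ℕ} [NeZero k]

/-- expectation under a mapped mass function -/
lemma tsum_map {A B : Type} (p : PMF A) (f : A → B) (g : B → ℝ≥0∞) :
    ∑' y, p.map f y * g y = ∑' s, p s * g (f s) := by
  simp only [PMF.map_apply, ← ENNReal.tsum_mul_right]
  rw [ENNReal.tsum_comm]
  refine tsum_congr fun s => ?_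
  rw [tsum_eq_single (f s)]
  · simp
  · intro b hb; rw [if_neg hb]; simp

/-- the test function -/
noncomputable def fz (z : ℝ) (n : ℕ) : ℝ := z ^ n + (z⁻¹) ^ n

lemma fz_pos {z : ℝ} (hz : 0 < z) (n : ℕ) : 0 < fz z n := by unfold fz; positivity

lemma one_step (z : ℝ) (hz : 1 < z) (x : FreeGroup (Fin k)) :
    ∑' y, srw k y * ENNReal.ofReal (fz z (x * y).norm) ≤
      ENNReal.ofReal (((2 * k - 1) * z + z⁻¹) / (2 * k)) * ENNReal.ofReal (fz z x.norm) := by
  have hk : (1 : ℝ) ≤ k := by exact_mod_cast Nat.one_le_iff_ne_zero.2 (NeZero.ne k)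
  have hz0 : 0 < z := by linarith
  rw [srw, tsum_map, tsum_fintype]
  simp only [unif_apply]
  have e1 : (2 * k : ℝ≥0∞)⁻¹ = ENNReal.ofReal ((2 * k : ℝ)⁻¹) := by
    rw [ENNReal.ofReal_inv_of_pos (by linarith), ENNReal.ofReal_mul (by norm_num)]
    simp
  rw [e1]
  have e2 : ∀ s : Fin k × Bool, ENNReal.ofReal ((2 * k : ℝ)⁻¹) * ENNReal.ofReal (fz z (x * letter s).norm)
      = ENNReal.ofReal ((2 * k : ℝ)⁻¹ * fz z (x * letter s).norm) := by
    intro s; rw [ENNReal.ofReal_mul (by positivity)]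
  simp only [e2]
  rw [← ENNReal.ofReal_sum_of_nonneg, ← ENNReal.ofReal_mul, ← Finset.mul_sum]
  · apply ENNReal.ofReal_le_ofReal
    have h := step_bound x (fz z) ((2 * k - 1) * z + z⁻¹) ?_ ?_
    · calc _ ≤ (2 * k : ℝ)⁻¹ * (((2 * k - 1) * z + z⁻¹) * fz z x.norm) := by gcongr
        _ = _ := by ring
    · unfold fz
      simp only [pow_one, pow_zero]
      have : z⁻¹ ≤ z := by
        rw [inv_le_comm₀ hz0 hz0]
        exact (inv_le_one_of_one_le₀ hz.le).trans hz.le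
      nlinarith
    · intro n
      unfold fz
      have hzz : z * z⁻¹ = 1 := mul_inv_cancel₀ hz0.ne'
      have h1 : z⁻¹ ≤ 1 := inv_le_one_of_one_le₀ hz.le
      have hpz : (0 : ℝ) < z ^ n := by positivity
      have hpi : (0 : ℝ) < (z⁻¹) ^ n := by positivity
      have e3 : ((2 * k - 1) * z + z⁻¹) * (z ^ (n + 1) + z⁻¹ ^ (n + 1)) -
          (z ^ n + z⁻¹ ^ n + (2 * k - 1) * (z ^ (n + 2) + z⁻¹ ^ (n + 2))) =
          z⁻¹ ^ n * ((2 * k - 2) * (1 - z⁻¹ ^ 2)) := by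
        have a1 : z ^ (n + 1) = z ^ n * z := pow_succ _ _
        have a2 : z ^ (n + 2) = z ^ n * z * z := by ring
        have a3 : z⁻¹ ^ (n + 1) = z⁻¹ ^ n * z⁻¹ := pow_succ _ _
        have a4 : z⁻¹ ^ (n + 2) = z⁻¹ ^ n * z⁻¹ * z⁻¹ := by ring
        rw [a1, a2, a3, a4]
        have b1 : z⁻¹ * (z ^ n * z) = z ^ n := by
          rw [mul_comm (z ^ n) z, ← mul_assoc, inv_mul_cancel₀ hz0.ne', one_mul]
        have b2 : z * (z⁻¹ ^ n * z⁻¹) = z⁻¹ ^ n := by
          rw [mul_comm (z⁻¹ ^ n) z⁻¹, ← mul_assoc, mul_inv_cancel₀ hz0.ne', one_mul]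
        linear_combination b1 + (2 * (k : ℝ) - 1) * b2
      have h3 : 0 ≤ z⁻¹ ^ n * ((2 * k - 2) * (1 - z⁻¹ ^ 2)) := by
        apply mul_nonneg hpi.le
        apply mul_nonneg (by linarith)
        have : z⁻¹ ^ 2 ≤ 1 := pow_le_one₀ (by positivity) h1
        linarith
      linarith
  · have h1 : 0 ≤ (2 * (k : ℝ) - 1) * z := mul_nonneg (by linarith) hz0.le
    positivity
  · intro s _
    have := fz_pos hz0 (x * letter s).norm
    positivity

/-- far elements -/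
def far (k n : ℕ) : Set (FreeGroup (Fin k)) := {x | (2 * k - 1) * n < 2 * k * x.norm}

noncomputable def yk (k : ℕ) : ℝ := 1 + 1 / (4 * k)

noncomputable def kap (k : ℕ) : ℝ :=
  ((2 * k - 1) * yk k ^ (2 * k) + (yk k ^ (2 * k))⁻¹) / (2 * k) / yk k ^ (2 * k - 1)

lemma yk_gt (k : ℕ) [NeZero k] : 1 < yk k := by
  have hk : (0 : ℝ) < k := by exact_mod_cast Nat.pos_of_ne_zero (NeZero.ne k)
  unfold yk
  have : 0 < 1 / (4 * (k : ℝ)) := by positivity
  linarith

lemma kap_pos (k : ℕ) [NeZero k] : 0 < kap k := by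
  have hk : (1 : ℝ) ≤ k := by exact_mod_cast Nat.one_le_iff_ne_zero.2 (NeZero.ne k)
  have hy := yk_gt k
  have hy0 : 0 < yk k := by linarith
  unfold kap
  have h1 : 0 < (2 * (k : ℝ) - 1) * yk k ^ (2 * k) := mul_pos (by linarith) (by positivity)
  positivity

lemma kap_lt_one (k : ℕ) [NeZero k] : kap k < 1 := by
  have hk : (1 : ℝ) ≤ k := by exact_mod_cast Nat.one_le_iff_ne_zero.2 (NeZero.ne k)
  have hk1 : 1 ≤ k := Nat.one_le_iff_ne_zero.2 (NeZero.ne k)
  have hy := yk_gt k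
  set y := yk k with hyd
  have hy0 : 0 < y := by linarith
  have hb : 1 + (4 * k - 1 : ℕ) * (1 / (4 * (k : ℝ))) ≤ y ^ (4 * k - 1) := by
    have := one_add_mul_le_pow (a := 1 / (4 * (k : ℝ))) (by
      have : 0 < 1 / (4 * (k : ℝ)) := by positivity
      linarith) (4 * k - 1)
    exact this
  have hc : ((4 * k - 1 : ℕ) : ℝ) = 4 * k - 1 := by
    rw [Nat.cast_sub (by omega)]; push_cast; ring
  rw [hc] at hb
  have hyv : y = 1 + 1 / (4 * k) := rfl
  have h5 : 1 < y ^ (4 * k - 1) * (2 * k - (2 * k - 1) * y) := by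
    have e1 : 2 * k - (2 * k - 1) * y = (2 * k + 1) / (4 * k) := by
      rw [hyv]; field_simp; ring
    rw [e1]
    have e2 : 1 + (4 * (k : ℝ) - 1) * (1 / (4 * k)) = (8 * k - 1) / (4 * k) := by
      field_simp; ring
    rw [e2] at hb
    calc (1 : ℝ) < (8 * k - 1) / (4 * k) * ((2 * k + 1) / (4 * k)) := by
          rw [div_mul_div_comm, lt_div_iff₀ (by positivity)]
          nlinarith
      _ ≤ _ := by gcongr
  unfold kap
  rw [← hyd]
  rw [div_lt_one (by positivity), div_lt_iff₀ (by positivity)]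
  have hz0 : 0 < y ^ (2 * k) := by positivity
  rw [← mul_lt_mul_iff_right₀ hz0]
  have e3 : y ^ (2 * k) * ((2 * k - 1) * y ^ (2 * k) + (y ^ (2 * k))⁻¹) =
      y ^ (4 * k - 1) * ((2 * k - 1) * y) + 1 := by
    have : y ^ (4 * k - 1) * y = y ^ (2 * k) * y ^ (2 * k) := by
      rw [← pow_succ, ← pow_add]; congr 1; omega
    rw [mul_add, mul_inv_cancel₀ hz0.ne']
    linear_combination -(2 * (k : ℝ) - 1) * this
  have e4 : y ^ (2 * k) * (y ^ (2 * k - 1) * (2 * k)) = y ^ (4 * k - 1) * (2 * k) := by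
    rw [← mul_assoc, ← pow_add]; congr 2; omega
  rw [e3, e4]
  nlinarith

variable {Ω : Type} [MeasurableSpace Ω] {P : Measure Ω} [IsProbabilityMeasure P]
  [MeasurableSpace (FreeGroup (Fin k))] [DiscreteMeasurableSpace (FreeGroup (Fin k))]
  [Countable (FreeGroup (Fin k))]
  {ζ : List ℕ → Ω → FreeGroup (Fin k)}

open Classical in
lemma lintegral_far_le (hm : ∀ u, Measurable (ζ u)) (hi : iIndepFun ζ P)
    (hl : ∀ u, P.map (ζ u) = (srw k).toMeasure) (v : List ℕ) :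
    ∫⁻ ω, (if pos (fun u => ζ u ω) v ∈ far k v.length then (1 : ℝ≥0∞) else 0) ∂P ≤
      2 * ENNReal.ofReal (kap k) ^ v.length := by
  have hk : (1 : ℝ) ≤ k := by exact_mod_cast Nat.one_le_iff_ne_zero.2 (NeZero.ne k)
  have hk1 : 1 ≤ k := Nat.one_le_iff_ne_zero.2 (NeZero.ne k)
  set n := v.length with hn
  set y := yk k with hy
  have hy1 : 1 < y := yk_gt k
  have hy0 : 0 < y := by linarith
  set z := y ^ (2 * k) with hz
  have hz1 : 1 < z := one_lt_pow₀ hy1 (by omega)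
  have hz0 : 0 < z := by linarith
  set Λ := ENNReal.ofReal (((2 * k - 1) * z + z⁻¹) / (2 * k)) with hΛ
  have h1 := lintegral_pos_le (srw k) hm hi hl (fun x => ENNReal.ofReal (fz z x.norm)) Λ
    (one_step z hz1) v
  have hF1 : ENNReal.ofReal (fz z (1 : FreeGroup (Fin k)).norm) = 2 := by
    rw [FreeGroup.norm_one]; unfold fz; norm_num
  simp only [hF1, ← hn] at h1
  set c := ENNReal.ofReal (y ^ (2 * k - 1)) with hc
  have hc0 : c ≠ 0 := by
    rw [hc, Ne, ENNReal.ofReal_eq_zero, not_le]; positivity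
  have hct : c ≠ ⊤ := ENNReal.ofReal_ne_top
  have h2 : ∀ x : FreeGroup (Fin k), (if x ∈ far k n then (1 : ℝ≥0∞) else 0) ≤
      (c ^ n)⁻¹ * ENNReal.ofReal (fz z x.norm) := by
    intro x
    split_ifs with hx
    · rw [mul_comm, ← div_eq_mul_inv,
        ENNReal.le_div_iff_mul_le (Or.inl (pow_ne_zero _ hc0)) (Or.inl (ENNReal.pow_ne_top hct)),
        one_mul, hc, ← ENNReal.ofReal_pow (by positivity)]
      apply ENNReal.ofReal_le_ofReal
      unfold fz
      have h3 : (y ^ (2 * k - 1)) ^ n ≤ z ^ x.norm := by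
        rw [hz, ← pow_mul, ← pow_mul]
        exact pow_le_pow_right₀ hy1.le (le_of_lt hx)
      have : 0 ≤ z⁻¹ ^ x.norm := by positivity
      linarith
    · positivity
  calc _ ≤ ∫⁻ ω, (c ^ n)⁻¹ * ENNReal.ofReal (fz z (pos (fun u => ζ u ω) v).norm) ∂P :=
        lintegral_mono fun ω => h2 _
    _ = (c ^ n)⁻¹ * ∫⁻ ω, ENNReal.ofReal (fz z (pos (fun u => ζ u ω) v).norm) ∂P := by
        rw [lintegral_const_mul' _ _ (by
          rw [Ne, ENNReal.inv_eq_top]; exact pow_ne_zero _ hc0)]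
    _ ≤ (c ^ n)⁻¹ * (Λ ^ n * 2) := by gcongr
    _ = 2 * (Λ * c⁻¹) ^ n := by
        rw [mul_pow, ENNReal.inv_pow]; ring
    _ = _ := by
        congr 2
        rw [hΛ, hc, ← ENNReal.ofReal_inv_of_pos (by positivity), ← ENNReal.ofReal_mul]
        · congr 1
        · have h1 : 0 ≤ (2 * (k : ℝ) - 1) * z := mul_nonneg (by linarith) hz0.le
          positivity

end Pool.Agent.Helper83.BRW
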