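import Pool.Agent.Helper83.BRWDefs

open MeasureTheory ProbabilityTheory Filter
open scoped ENNReal Topology

namespace Pool.Agent.Helper83.BRW

/-- power restricted to nonzero arguments -/
noncomputable def phi (α : ℝ) (t : ℝ≥0∞) : ℝ≥0∞ := if t = 0 then 0 else t ^ α

/-- the Renyi sum -/
noncomputable def S {G : Type} (α : ℝ) (ν : G → ℝ≥0∞) : ℝ≥0∞ := ∑' g, phi α (ν g)

lemma tsum_support {G : Type} (α : ℝ) (ν : G → ℝ≥0∞) :
    ∑' g : {g : G // ν g ≠ 0}, ν g ^ α = S α ν := by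
  have := tsum_subtype {g : G | ν g ≠ 0} (fun g => ν g ^ α)
  rw [S]
  refine this.trans (tsum_congr fun g => ?_)
  by_cases h : ν g = 0
  · simp [phi, h]
  · simp [phi, h]

lemma renyi_eq {G : Type} (α : ℝ) (ν : G → ℝ≥0∞) :
    renyi α ν = (((1 - α)⁻¹ : ℝ) : EReal) * ENNReal.log (S α ν) := by
  rw [renyi, tsum_support]

lemma phi_mul (α : ℝ) (a b : ℝ≥0∞) : phi α (a * b) = phi α a * phi α b := by
  unfold phi
  by_cases ha : a = 0
  · simp [ha]
  by_cases hb : b = 0
  · simp [hb]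
  rw [if_neg ha, if_neg hb, if_neg (mul_ne_zero ha hb), ENNReal.mul_rpow_of_ne_zero ha hb]

lemma phi_add_le {α : ℝ} (h0 : 0 ≤ α) (h1 : α ≤ 1) (a b : ℝ≥0∞) :
    phi α (a + b) ≤ phi α a + phi α b := by
  unfold phi
  by_cases ha : a = 0
  · simp [ha]
  by_cases hb : b = 0
  · simp [hb]
  rw [if_neg ha, if_neg hb, if_neg (by simp [ha])]
  rcases h0.eq_or_lt with rfl | h0
  · simp
  · exact ENNReal.rpow_add_le_add_rpow _ _ h0.le h1

lemma phi_sum_le {ι : Type*} {α : ℝ} (h0 : 0 ≤ α) (h1 : α ≤ 1) (s : Finset ι) (a : ι → ℝ≥0∞) :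
    phi α (∑ i ∈ s, a i) ≤ ∑ i ∈ s, phi α (a i) := by
  classical
  induction s using Finset.induction_on with
  | empty => simp [phi]
  | insert i s hi ih =>
    rw [Finset.sum_insert hi, Finset.sum_insert hi]
    exact (phi_add_le h0 h1 _ _).trans (add_le_add le_rfl ih)

lemma phi_tsum_le {ι : Type*} {α : ℝ} (h0 : 0 ≤ α) (h1 : α ≤ 1) (a : ι → ℝ≥0∞) :
    phi α (∑' i, a i) ≤ ∑' i, phi α (a i) := by
  rcases h0.eq_or_lt with rfl | h0'
  · by_cases h : ∑' i, a i = 0
    · simp [phi, h]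
    · have : ∃ i, a i ≠ 0 := by
        by_contra hh
        push Not at hh
        exact h (by simp [hh])
      obtain ⟨i, hi⟩ := this
      calc phi 0 (∑' i, a i) ≤ 1 := by simp [phi]; split_ifs <;> simp
        _ = phi 0 (a i) := by simp [phi, hi]
        _ ≤ _ := ENNReal.le_tsum i
  · have hphi : ∀ t, phi α t = t ^ α := by
      intro t; unfold phi
      split_ifs with h
      · rw [h, ENNReal.zero_rpow_of_pos h0']
      · rfl
    have h2 : Tendsto (fun s : Finset ι => (∑ i ∈ s, a i) ^ α) atTop (𝓝 ((∑' i, a i) ^ α)) :=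
      ((ENNReal.continuous_rpow_const (y := α)).tendsto _).comp
        (ENNReal.summable.hasSum)
    rw [hphi]
    refine le_of_tendsto' h2 fun s => ?_
    have := phi_sum_le h0 h1 s a
    rw [hphi] at this
    exact this.trans (ENNReal.sum_le_tsum s)

variable {G : Type} [Group G]

lemma map_mul_left_apply (q : PMF G) (x g : G) : (q.map fun y => x * y) g = q (x⁻¹ * g) := by
  rw [PMF.map_apply, tsum_eq_single (x⁻¹ * g)]
  · simp
  · intro b hb
    rw [if_neg]
    rintro rfl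
    simp at hb

lemma convPow_add (μ : PMF G) (m n : ℕ) :
    convPow μ (m + n) = (convPow μ m).bind fun x => (convPow μ n).map fun y => x * y := by
  induction n with
  | zero =>
    simp only [convPow, Nat.add_zero, PMF.map, PMF.pure_bind, Function.comp_def, mul_one]
    exact (PMF.bind_pure _).symm
  | succ n ih =>
    rw [← Nat.add_assoc]
    simp only [convPow, ih, PMF.map, PMF.bind_bind, PMF.pure_bind, Function.comp_def, mul_assoc]

lemma convPow_add_apply (μ : PMF G) (m n : ℕ) (g : G) :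
    convPow μ (m + n) g = ∑' x, convPow μ m x * convPow μ n (x⁻¹ * g) := by
  rw [convPow_add, PMF.bind_apply]
  simp only [map_mul_left_apply]

lemma S_add_le {α : ℝ} (h0 : 0 ≤ α) (h1 : α ≤ 1) (μ : PMF G) (m n : ℕ) :
    S α (convPow μ (m + n)) ≤ S α (convPow μ m) * S α (convPow μ n) := by
  unfold S
  calc ∑' g, phi α (convPow μ (m + n) g)
      ≤ ∑' g, ∑' x, phi α (convPow μ m x) * phi α (convPow μ n (x⁻¹ * g)) := by
        refine ENNReal.tsum_le_tsum fun g => ?_
        rw [convPow_add_apply]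
        refine (phi_tsum_le h0 h1 _).trans (le_of_eq ?_)
        simp only [phi_mul]
    _ = ∑' x, ∑' g, phi α (convPow μ m x) * phi α (convPow μ n (x⁻¹ * g)) := ENNReal.tsum_comm
    _ = ∑' x, phi α (convPow μ m x) * ∑' g, phi α (convPow μ n g) := by
        refine tsum_congr fun x => ?_
        rw [ENNReal.tsum_mul_left]
        congr 1
        exact (Equiv.mulLeft x⁻¹).tsum_eq (fun g => phi α (convPow μ n g))
    _ = _ := ENNReal.tsum_mul_right

lemma one_le_S {α : ℝ} (h1 : α ≤ 1) (q : PMF G) : 1 ≤ S α q := by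
  rw [← q.tsum_coe]
  unfold S
  refine ENNReal.tsum_le_tsum fun g => ?_
  unfold phi
  split_ifs with h
  · simp [h]
  · have : (q g) ^ (1 : ℝ) ≤ (q g) ^ α :=
      ENNReal.rpow_le_rpow_of_exponent_ge (q.coe_le_one g) h1
    simpa using this

lemma S_ne_top {α : ℝ} (h0 : 0 ≤ α) (h1 : α ≤ 1) (μ : PMF G) (hμ : S α μ ≠ ⊤) (n : ℕ) :
    S α (convPow μ n) ≠ ⊤ := by
  induction n with
  | zero =>
    have : S α (convPow μ 0) = 1 := by
      unfold S
      rw [tsum_eq_single (1 : G)]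
      · simp [phi, convPow]
      · intro b hb
        simp [phi, convPow, hb]
    rw [this]; simp
  | succ n ih =>
    refine ne_top_of_le_ne_top (ENNReal.mul_ne_top ih ?_) (S_add_le h0 h1 μ n 1)
    have : convPow μ 1 = μ := by
      simp only [convPow, PMF.pure_bind, one_mul]
      exact PMF.map_id μ
    rwa [this]

/-- log of the Renyi sums -/
noncomputable def u (α : ℝ) (μ : PMF G) (n : ℕ) : ℝ := Real.log (S α (convPow μ n)).toReal

lemma u_nonneg {α : ℝ} (h0 : 0 ≤ α) (h1 : α ≤ 1) (μ : PMF G) (hμ : S α μ ≠ ⊤) (n : ℕ) :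
    0 ≤ u α μ n := by
  apply Real.log_nonneg
  have := ENNReal.toReal_mono (S_ne_top h0 h1 μ hμ n) (one_le_S h1 (convPow μ n))
  simpa using this

lemma log_S {α : ℝ} (h0 : 0 ≤ α) (h1 : α ≤ 1) (μ : PMF G) (hμ : S α μ ≠ ⊤) (n : ℕ) :
    ENNReal.log (S α (convPow μ n)) = (u α μ n : EReal) := by
  have h2 := S_ne_top h0 h1 μ hμ n
  have h3 : 1 ≤ S α (convPow μ n) := one_le_S h1 (convPow μ n)
  have h4 : S α (convPow μ n) ≠ 0 := by
    intro h; rw [h] at h3; simp at h3
  rw [ENNReal.log_pos_real h4 h2]; rfl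

lemma subadditive_u {α : ℝ} (h0 : 0 ≤ α) (h1 : α ≤ 1) (μ : PMF G) (hμ : S α μ ≠ ⊤) :
    Subadditive (u α μ) := by
  intro m n
  have hm := S_ne_top h0 h1 μ hμ m
  have hn := S_ne_top h0 h1 μ hμ n
  have hmn := S_ne_top h0 h1 μ hμ (m + n)
  have key := ENNReal.toReal_mono (ENNReal.mul_ne_top hm hn) (S_add_le h0 h1 μ m n)
  rw [ENNReal.toReal_mul] at key
  have pos : ∀ j, 0 < (S α (convPow μ j)).toReal := by
    intro j
    have := ENNReal.toReal_mono (S_ne_top h0 h1 μ hμ j) (one_le_S h1 (convPow μ j))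
    simp only [ENNReal.toReal_one] at this
    linarith
  unfold u
  rw [← Real.log_mul (pos m).ne' (pos n).ne']
  exact Real.log_le_log (pos _) key

/-- existence of the asymptotic Renyi entropy for `α < 1`, and a lower bound -/
lemma exists_h {α : ℝ} (h0 : 0 ≤ α) (h1 : α < 1) (μ : PMF G) (hμ : S α μ ≠ ⊤) (c : ℝ)
    (hc : ∀ n : ℕ, n * c ≤ u α μ n) :
    ∃ h : ℝ, (1 - α)⁻¹ * c ≤ h ∧
      Tendsto (fun n : ℕ => renyi α (convPow μ n) / (n : EReal)) atTop (𝓝 (h : EReal)) := by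
  have hsub := subadditive_u h0 h1.le μ hμ
  have hbdd : BddBelow (Set.range fun n => u α μ n / n) := by
    refine ⟨0, ?_⟩
    rintro _ ⟨n, rfl⟩
    exact div_nonneg (u_nonneg h0 h1.le μ hμ n) (Nat.cast_nonneg n)
  have hlim := hsub.tendsto_lim hbdd
  have hpos : 0 < (1 - α)⁻¹ := by
    apply inv_pos.2; linarith
  refine ⟨(1 - α)⁻¹ * hsub.lim, ?_, ?_⟩
  · refine mul_le_mul_of_nonneg_left ?_ hpos.le
    refine ge_of_tendsto hlim ?_
    filter_upwards [eventually_gt_atTop 0] with n hn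
    have hn' : (0 : ℝ) < n := Nat.cast_pos.2 hn
    rw [le_div_iff₀ hn', mul_comm]
    exact hc n
  · have h2 := hlim.const_mul ((1 - α)⁻¹)
    have h3 := (continuous_coe_real_ereal.tendsto _).comp h2
    refine h3.congr fun n => ?_
    simp only [Function.comp_apply]
    rw [renyi_eq, log_S h0 h1.le μ hμ]
    rw [← EReal.coe_mul]
    have : ((n : ℕ) : EReal) = (((n : ℕ) : ℝ) : EReal) := by simp
    rw [this, ← EReal.coe_div, mul_div_assoc]

end Pool.Agent.Helper83.BRW
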