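import Mathlib

namespace Pool.Agent.Helper83.FGr

open FreeGroup

variable {k : ℕ}

/-- inverse letter -/
def bar (s : Fin k × Bool) : Fin k × Bool := (s.1, !s.2)

@[simp] lemma bar_bar (s : Fin k × Bool) : bar (bar s) = s := by simp [bar]

lemma bar_ne (s : Fin k × Bool) : bar s ≠ s := by
  rcases s with ⟨a, b⟩; simp [bar]

/-- the group element of a letter -/
def letter (s : Fin k × Bool) : FreeGroup (Fin k) := mk [s]

lemma letter_inv (s : Fin k × Bool) : (letter s)⁻¹ = letter (bar s) := by
  simp [letter, bar, FreeGroup.inv_mk, FreeGroup.invRev]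

lemma toWord_letter_mul (s : Fin k × Bool) (x : FreeGroup (Fin k)) :
    (letter s * x).toWord =
      (match x.toWord with
        | [] => [s]
        | hd :: tl => if hd = bar s then tl else s :: hd :: tl) := by
  rw [toWord_mul, letter]
  have h1 : (mk [s]).toWord = [s] := by simp [toWord_mk]
  rw [h1, List.singleton_append, reduce.cons, reduce_toWord]
  rcases x.toWord with _ | ⟨hd, tl⟩
  · rfl
  · simp only
    have : (s.1 = hd.1 ∧ s.2 = !hd.2) ↔ hd = bar s := by
      rcases s with ⟨a, b⟩; rcases hd with ⟨c, d⟩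
      simp only [bar, Prod.mk.injEq]
      constructor
      · rintro ⟨rfl, rfl⟩; simp
      · rintro ⟨rfl, rfl⟩; simp
    by_cases h : hd = bar s
    · rw [if_pos h, if_pos (this.2 h)]
    · rw [if_neg h, if_neg (fun hh => h (this.1 hh))]

lemma norm_letter_mul_cons (s : Fin k × Bool) (x : FreeGroup (Fin k)) (hd : Fin k × Bool)
    (tl : List (Fin k × Bool)) (hx : x.toWord = hd :: tl) :
    (letter s * x).norm = if s = bar hd then tl.length else tl.length + 2 := by
  unfold FreeGroup.norm
  rw [toWord_letter_mul, hx]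
  simp only
  by_cases h : hd = bar s
  · subst h; simp
  · have h' : s ≠ bar hd := by
      rintro rfl; simp at h
    rw [if_neg h, if_neg h']; simp

lemma sum_letter (x : FreeGroup (Fin k)) (hx : x ≠ 1) (f : ℕ → ℝ) :
    ∑ s : Fin k × Bool, f (letter s * x).norm =
      f (x.norm - 1) + (2 * k - 1) * f (x.norm + 1) := by
  have hw : x.toWord ≠ [] := by
    rwa [Ne, toWord_eq_nil_iff]
  obtain ⟨hd, tl, h⟩ := List.exists_cons_of_ne_nil hw
  have hn : x.norm = tl.length + 1 := by unfold FreeGroup.norm; rw [h]; simp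
  rw [← Finset.add_sum_erase _ _ (Finset.mem_univ (bar hd))]
  rw [norm_letter_mul_cons _ _ _ _ h, if_pos rfl]
  have : ∀ s ∈ Finset.univ.erase (bar hd), f (letter s * x).norm = f (x.norm + 1) := by
    intro s hs
    rw [norm_letter_mul_cons _ _ _ _ h, if_neg (Finset.ne_of_mem_erase hs), hn]
  rw [Finset.sum_congr rfl this, Finset.sum_const, Finset.card_erase_of_mem (Finset.mem_univ _)]
  simp only [Finset.card_univ, Fintype.card_prod, Fintype.card_fin, Fintype.card_bool, hn]
  rw [nsmul_eq_mul]
  have hk : 0 < k := by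
    have := hd.1.2; omega
  have h2 : ((k * 2 - 1 : ℕ) : ℝ) = 2 * k - 1 := by
    rw [Nat.cast_sub (by omega)]; push_cast; ring
  rw [h2]; simp

lemma sum_letter_one (f : ℕ → ℝ) :
    ∑ s : Fin k × Bool, f (letter s * 1).norm = 2 * k * f 1 := by
  have : ∀ s : Fin k × Bool, (letter s * 1).norm = 1 := by
    intro s; unfold FreeGroup.norm; rw [toWord_letter_mul]; simp
  simp only [this, Finset.sum_const, Finset.card_univ, Fintype.card_prod, Fintype.card_fin,
    Fintype.card_bool, nsmul_eq_mul]
  push_cast; ring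

lemma norm_mul_letter (s : Fin k × Bool) (x : FreeGroup (Fin k)) :
    (x * letter s).norm = (letter (bar s) * x⁻¹).norm := by
  rw [← norm_inv_eq, mul_inv_rev, letter_inv]

/-- bar as an equivalence -/
def barEquiv : Fin k × Bool ≃ Fin k × Bool := ⟨bar, bar, bar_bar, bar_bar⟩

lemma sum_mul_letter (x : FreeGroup (Fin k)) (f : ℕ → ℝ) :
    ∑ s : Fin k × Bool, f (x * letter s).norm = ∑ s : Fin k × Bool, f (letter s * x⁻¹).norm := by
  simp only [norm_mul_letter]
  exact Equiv.sum_comp barEquiv (fun s => f (letter s * x⁻¹).norm)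

/-- the key one-step inequality -/
lemma step_bound (x : FreeGroup (Fin k)) (f : ℕ → ℝ) (lam : ℝ)
    (h0 : 2 * k * f 1 ≤ lam * f 0)
    (h1 : ∀ n : ℕ, f n + (2 * k - 1) * f (n + 2) ≤ lam * f (n + 1)) :
    ∑ s : Fin k × Bool, f (x * letter s).norm ≤ lam * f x.norm := by
  rw [sum_mul_letter]
  by_cases hx : x = 1
  · subst hx
    rw [inv_one, sum_letter_one]; simpa using h0
  · have hx' : x⁻¹ ≠ 1 := by simpa using hx
    rw [sum_letter _ hx', norm_inv_eq]
    have : x.norm ≠ 0 := by rwa [Ne, FreeGroup.norm_eq_zero]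
    obtain ⟨n, hn⟩ := Nat.exists_eq_succ_of_ne_zero this
    rw [hn]
    simpa using h1 n

end Pool.Agent.Helper83.FGr
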