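import Pool.Agent.Helper83.FG1

namespace Pool.Agent.Helper83.FGr

open FreeGroup

variable {k : ℕ}

/-- reduced words of length n -/
def R (k : ℕ) : ℕ → Finset (List (Fin k × Bool))
  | 0 => {[]}
  | n + 1 => (R k n).biUnion fun L =>
      (Finset.univ.filter fun s => L.head? ≠ some (bar s)).image fun s => s :: L

lemma mem_R {n : ℕ} {L : List (Fin k × Bool)} :
    L ∈ R k n ↔ L.length = n ∧ IsReduced L := by
  induction n generalizing L with
  | zero =>
    simp only [R, Finset.mem_singleton]
    constructor
    · rintro rfl; exact ⟨rfl, IsReduced.nil⟩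
    · rintro ⟨h, -⟩; exact List.length_eq_zero_iff.1 h
  | succ n ih =>
    simp only [R, Finset.mem_biUnion, Finset.mem_image, Finset.mem_filter, Finset.mem_univ,
      true_and]
    constructor
    · rintro ⟨L', hL', s, hs, rfl⟩
      obtain ⟨h1, h2⟩ := ih.1 hL'
      refine ⟨by simp [h1], ?_⟩
      rcases L' with _ | ⟨hd, tl⟩
      · exact IsReduced.singleton
      · rw [FreeGroup.isReduced_cons_cons]
        refine ⟨?_, h2⟩
        intro h
        by_contra hne
        apply hs
        simp only [List.head?_cons, Option.some.injEq]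
        rcases s with ⟨a, b⟩; rcases hd with ⟨c, d⟩
        simp only at h hne
        subst h
        simp only [bar, Prod.mk.injEq, true_and]
        cases b <;> cases d <;> simp_all
    · rintro ⟨h1, h2⟩
      rcases L with _ | ⟨s, L'⟩
      · simp at h1
      · refine ⟨L', ih.2 ⟨by simpa using h1, ?_⟩, s, ?_, rfl⟩
        · rcases L' with _ | ⟨hd, tl⟩
          · exact IsReduced.nil
          · exact (FreeGroup.isReduced_cons_cons.1 h2).2
        · rcases L' with _ | ⟨hd, tl⟩
          · simp
          · have := (FreeGroup.isReduced_cons_cons.1 h2).1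
            simp only [List.head?_cons, Ne, Option.some.injEq]
            rintro rfl
            have h3 := this rfl
            rcases s with ⟨a, b⟩
            revert h3
            cases b <;> simp [bar]

lemma card_filter_head (L : List (Fin k × Bool)) :
    (2 * k - 1 ≤ (Finset.univ.filter fun s => L.head? ≠ some (bar s)).card) ∧
    ((Finset.univ.filter fun s => L.head? ≠ some (bar s)).card ≤ 2 * k) ∧
    (L ≠ [] → (Finset.univ.filter fun s => L.head? ≠ some (bar s)).card = 2 * k - 1) := by
  rcases L with _ | ⟨hd, tl⟩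
  · simp
    omega
  · have : (Finset.univ.filter fun s => (hd :: tl).head? ≠ some (bar s)) =
        Finset.univ.erase (bar hd) := by
      ext s
      simp only [List.head?_cons, Finset.mem_filter, Finset.mem_univ, true_and, Finset.mem_erase,
        and_true, Ne, Option.some.injEq]
      constructor
      · intro h h'; apply h; rw [h']; simp
      · intro h h'; apply h; rw [h']; simp
    rw [this, Finset.card_erase_of_mem (Finset.mem_univ _)]
    simp only [Finset.card_univ, Fintype.card_prod, Fintype.card_fin, Fintype.card_bool]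
    refine ⟨by omega, by omega, fun _ => by omega⟩

lemma card_R_succ (n : ℕ) :
    (R k (n + 1)).card = ∑ L ∈ R k n, (Finset.univ.filter fun s => L.head? ≠ some (bar s)).card := by
  rw [R, Finset.card_biUnion]
  · refine Finset.sum_congr rfl fun L _ => ?_
    rw [Finset.card_image_of_injective]
    intro a b h
    simpa using h
  · intro L _ L' _ hne
    rw [Function.onFun, Finset.disjoint_left]
    intro M h1 h2
    simp only [Finset.mem_image] at h1 h2
    obtain ⟨a, -, rfl⟩ := h1
    obtain ⟨b, -, h⟩ := h2
    simp only [List.cons.injEq] at h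
    exact hne h.2.symm

lemma card_R_ge (n : ℕ) : (2 * k - 1) ^ n ≤ (R k n).card := by
  induction n with
  | zero => simp [R]
  | succ n ih =>
    rw [card_R_succ, pow_succ]
    calc (2 * k - 1) ^ n * (2 * k - 1) ≤ (R k n).card * (2 * k - 1) := Nat.mul_le_mul_right _ ih
      _ = ∑ L ∈ R k n, (2 * k - 1) := by rw [Finset.sum_const, smul_eq_mul]
      _ ≤ _ := Finset.sum_le_sum fun L _ => (card_filter_head L).1

lemma card_R_one_le : (R k 1).card ≤ 2 * k := by
  rw [card_R_succ]
  simp only [R, Finset.sum_singleton]
  exact (card_filter_head []).2.1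

lemma card_R_le (n : ℕ) : (R k (n + 1)).card ≤ 2 * k * (2 * k - 1) ^ n := by
  induction n with
  | zero => simpa using card_R_one_le
  | succ n ih =>
    rw [card_R_succ]
    calc ∑ L ∈ R k (n + 1), (Finset.univ.filter fun s => L.head? ≠ some (bar s)).card
        = ∑ L ∈ R k (n + 1), (2 * k - 1) := by
          refine Finset.sum_congr rfl fun L hL => ?_
          apply (card_filter_head L).2.2
          rintro rfl
          have := (mem_R.1 hL).1
          simp at this
      _ = (R k (n + 1)).card * (2 * k - 1) := by rw [Finset.sum_const, smul_eq_mul]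
      _ ≤ 2 * k * (2 * k - 1) ^ n * (2 * k - 1) := Nat.mul_le_mul_right _ ih
      _ = _ := by rw [pow_succ]; ring

lemma sum_card_R_le (hk : 2 ≤ k) (m : ℕ) :
    ∑ j ∈ Finset.range (m + 1), (R k j).card ≤ 2 * k * (2 * k - 1) ^ m := by
  induction m with
  | zero => simp [R]; omega
  | succ m ih =>
    rw [Finset.sum_range_succ]
    calc _ ≤ 2 * k * (2 * k - 1) ^ m + 2 * k * (2 * k - 1) ^ m := Nat.add_le_add ih (card_R_le m)
      _ = 2 * k * (2 * k - 1) ^ m * 2 := by ring
      _ ≤ 2 * k * (2 * k - 1) ^ m * (2 * k - 1) := Nat.mul_le_mul_left _ (by omega)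
      _ = _ := by rw [pow_succ]; ring

/-- the ball of radius m -/
def ball (k m : ℕ) : Finset (FreeGroup (Fin k)) :=
  (Finset.range (m + 1)).biUnion fun j => (R k j).image mk

lemma mem_ball {m : ℕ} {x : FreeGroup (Fin k)} (h : x.norm ≤ m) : x ∈ ball k m := by
  rw [ball, Finset.mem_biUnion]
  refine ⟨x.norm, by simpa [Nat.lt_succ_iff] using h, ?_⟩
  rw [Finset.mem_image]
  exact ⟨x.toWord, mem_R.2 ⟨rfl, isReduced_toWord⟩, mk_toWord⟩

lemma card_ball_le (hk : 2 ≤ k) (m : ℕ) : (ball k m).card ≤ 2 * k * (2 * k - 1) ^ m := by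
  refine le_trans ?_ (sum_card_R_le hk m)
  refine le_trans Finset.card_biUnion_le ?_
  exact Finset.sum_le_sum fun j _ => Finset.card_image_le

/-- the sphere of radius n -/
def sph (k n : ℕ) : Finset (FreeGroup (Fin k)) := (R k n).image mk

lemma card_sph (n : ℕ) : (sph k n).card = (R k n).card := by
  rw [sph, Finset.card_image_of_injOn]
  intro a ha b hb hab
  have h1 := (mem_R.1 (Finset.mem_coe.1 ha)).2
  have h2 := (mem_R.1 (Finset.mem_coe.1 hb)).2
  have := congrArg toWord hab
  rwa [toWord_mk, toWord_mk, h1.reduce_eq, h2.reduce_eq] at this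

end Pool.Agent.Helper83.FGr
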