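import Pool.Agent.Helper83.Ent
import Pool.Agent.Helper83.FG2

open MeasureTheory ProbabilityTheory Filter FreeGroup
open scoped ENNReal Topology

namespace Pool.Agent.Helper83.BRW

open Pool.Agent.Helper83.FGr

variable {k : ℕ} [NeZero k]

/-- simple random walk step law on the free group -/
noncomputable def srw (k : ℕ) [NeZero k] : PMF (FreeGroup (Fin k)) :=
  (PMF.uniformOfFintype (Fin k × Bool)).map letter

lemma unif_apply (s : Fin k × Bool) :
    PMF.uniformOfFintype (Fin k × Bool) s = (2 * k : ℝ≥0∞)⁻¹ := by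
  rw [PMF.uniformOfFintype_apply]
  simp [mul_comm]

lemma srw_letter_ge (s : Fin k × Bool) : (2 * k : ℝ≥0∞)⁻¹ ≤ srw k (letter s) := by
  rw [srw, PMF.map_apply]
  refine le_trans ?_ (ENNReal.le_tsum s)
  rw [if_pos rfl, unif_apply]

lemma S_srw_ne_top {α : ℝ} (h0 : 0 ≤ α) (h1 : α ≤ 1) : S α (srw k) ≠ ⊤ := by
  have h : S α (srw k) ≤ ∑' s : Fin k × Bool, phi α ((2 * k : ℝ≥0∞)⁻¹) := by
    unfold S
    calc ∑' g, phi α (srw k g) ≤ ∑' g, ∑' s : Fin k × Bool,
          phi α (if g = letter s then (2 * k : ℝ≥0∞)⁻¹ else 0) := by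
          refine ENNReal.tsum_le_tsum fun g => ?_
          rw [srw, PMF.map_apply]
          simp only [unif_apply]
          exact phi_tsum_le h0 h1 _
      _ = ∑' s : Fin k × Bool, ∑' g, phi α (if g = letter s then (2 * k : ℝ≥0∞)⁻¹ else 0) :=
          ENNReal.tsum_comm
      _ = _ := by
          refine tsum_congr fun s => ?_
          rw [tsum_eq_single (letter s)]
          · simp
          · intro b hb
            simp [hb, phi]
  refine ne_top_of_le_ne_top ?_ h
  rw [tsum_fintype, Finset.sum_const, nsmul_eq_mul]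
  refine ENNReal.mul_ne_top (ENNReal.natCast_ne_top _) ?_
  unfold phi
  split_ifs
  · simp
  · apply ENNReal.rpow_ne_top_of_nonneg h0
    simp [NeZero.ne k]

lemma shannon_srw : (∑' x, ENNReal.ofReal (Real.negMulLog (srw k x).toReal)) ≠ ⊤ := by
  rw [tsum_eq_sum (s := Finset.univ.image (letter (k := k)))]
  · exact ENNReal.sum_ne_top.2 fun _ _ => ENNReal.ofReal_ne_top
  · intro b hb
    have : srw k b = 0 := by
      rw [srw, PMF.map_apply, ENNReal.tsum_eq_zero]
      intro s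
      rw [if_neg]
      rintro rfl
      exact hb (Finset.mem_image_of_mem _ (Finset.mem_univ s))
    simp [this]

lemma convPow_ge (L : List (Fin k × Bool)) :
    ((2 * k : ℝ≥0∞)⁻¹) ^ L.length ≤ convPow (srw k) L.length (mk L) := by
  induction L with
  | nil => simp [convPow, FreeGroup.one_eq_mk]
  | cons s L ih =>
    rw [List.length_cons, add_comm, convPow_add_apply]
    have h1 : convPow (srw k) 1 = srw k := by
      simp only [convPow, PMF.pure_bind, one_mul]
      exact PMF.map_id _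
    refine le_trans ?_ (ENNReal.le_tsum (letter s))
    rw [h1]
    have h2 : (letter s)⁻¹ * mk (s :: L) = mk L := by
      have : mk (s :: L) = letter s * mk L := by
        rw [letter, FreeGroup.mul_mk]; simp
      rw [this]; simp
    rw [h2, pow_add, pow_one]
    exact mul_le_mul' (srw_letter_ge s) ih

lemma S_ge {α : ℝ} (h0 : 0 ≤ α) (n : ℕ) :
    (((2 * k - 1 : ℕ) : ℝ≥0∞)) ^ n * (((2 * k : ℝ≥0∞)⁻¹) ^ n) ^ α ≤ S α (convPow (srw k) n) := by
  unfold S
  have hpos : ((2 * k : ℝ≥0∞)⁻¹) ^ n ≠ 0 := by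
    apply pow_ne_zero
    rw [Ne, ENNReal.inv_eq_zero]
    exact ENNReal.mul_ne_top (by simp) (by simp)
  calc (((2 * k - 1 : ℕ) : ℝ≥0∞)) ^ n * (((2 * k : ℝ≥0∞)⁻¹) ^ n) ^ α
      ≤ ((sph k n).card : ℝ≥0∞) * (((2 * k : ℝ≥0∞)⁻¹) ^ n) ^ α := by
        gcongr
        rw [card_sph]
        exact_mod_cast card_R_ge (k := k) n
    _ = ∑ g ∈ sph k n, (((2 * k : ℝ≥0∞)⁻¹) ^ n) ^ α := by
        rw [Finset.sum_const, nsmul_eq_mul]
    _ ≤ ∑ g ∈ sph k n, phi α (convPow (srw k) n g) := by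
        refine Finset.sum_le_sum fun g hg => ?_
        obtain ⟨L, hL, rfl⟩ := Finset.mem_image.1 hg
        have hlen := (mem_R.1 hL).1
        have h := convPow_ge L
        rw [hlen] at h
        have hne : convPow (srw k) n (mk L) ≠ 0 := by
          intro h'
          rw [h', nonpos_iff_eq_zero] at h
          exact hpos h
        unfold phi
        rw [if_neg hne]
        exact ENNReal.rpow_le_rpow h h0
    _ ≤ _ := ENNReal.sum_le_tsum _

lemma u_ge {α : ℝ} (h0 : 0 ≤ α) (h1 : α ≤ 1) (n : ℕ) :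
    n * (Real.log (2 * k - 1) - α * Real.log (2 * k)) ≤ u α (srw k) n := by
  have hk : (1 : ℝ) ≤ k := by exact_mod_cast Nat.one_le_iff_ne_zero.2 (NeZero.ne k)
  have hk' : 1 ≤ k := Nat.one_le_iff_ne_zero.2 (NeZero.ne k)
  have h := S_ge (k := k) h0 n
  have h2 := S_ne_top h0 h1 (srw k) (S_srw_ne_top h0 h1) n
  have h3 := ENNReal.toReal_mono h2 h
  have e1 : (((((2 * k - 1 : ℕ) : ℝ≥0∞)) ^ n * (((2 * k : ℝ≥0∞)⁻¹) ^ n) ^ α)).toReal =
      (2 * k - 1 : ℝ) ^ n * (((2 * k : ℝ)⁻¹) ^ n) ^ α := by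
    rw [ENNReal.toReal_mul, ENNReal.toReal_pow, ← ENNReal.toReal_rpow, ENNReal.toReal_pow,
      ENNReal.toReal_inv, ENNReal.toReal_mul]
    simp only [ENNReal.toReal_natCast, ENNReal.toReal_ofNat]
    rw [Nat.cast_sub (by omega)]
    push_cast; ring_nf
  rw [e1] at h3
  have p1 : (0 : ℝ) < (2 * k - 1 : ℝ) := by linarith
  have p2 : (0 : ℝ) < (2 * k : ℝ) := by linarith
  have e2 : Real.log ((2 * k - 1 : ℝ) ^ n * (((2 * k : ℝ)⁻¹) ^ n) ^ α) =
      n * (Real.log (2 * k - 1) - α * Real.log (2 * k)) := by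
    rw [Real.log_mul (by positivity) (by positivity), Real.log_pow, Real.log_rpow (by positivity),
      Real.log_pow, Real.log_inv]
    ring
  rw [← e2]
  exact Real.log_le_log (by positivity) h3

end Pool.Agent.Helper83.BRW
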